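import Mathlib

/-!
# General rational points of quadric bundles
-/

set_option autoImplicit false

namespace Pool.Agent.N230.FC

open MvPolynomial Matrix

universe u v w

theorem ae {k : Type u} [Field k] {σ : Type v} (a : σ → k) (P : MvPolynomial σ k) : aeval a P = eval a P := rfl

/-- clearing denominators, for arbitrary sets of variables -/
theorem clearG {k : Type u} [Field k] {σ : Type v} {τ : Type w} (A : τ → MvPolynomial σ k) (D : MvPolynomial σ k)
    (G : MvPolynomial τ k) : ∃ (G' : MvPolynomial σ k) (e : ℕ),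
      ∀ {E : Type u} [Field E] [Algebra k E] (c : σ → E) (c' : τ → E),
        (∀ j, c' j * aeval c D = aeval c (A j)) → aeval c' G * aeval c D ^ e = aeval c G' := by
  induction G using MvPolynomial.induction_on with
  | C a =>
    refine ⟨C a, 0, fun c c' _ => ?_⟩
    rw [aeval_C, aeval_C, pow_zero, mul_one]
  | add p q hp hq =>
    obtain ⟨Q₁, e₁, h₁⟩ := hp
    obtain ⟨Q₂, e₂, h₂⟩ := hq
    refine ⟨Q₁ * D ^ e₂ + Q₂ * D ^ e₁, e₁ + e₂, fun c c' hc => ?_⟩
    rw [map_add, map_add, map_mul, map_mul, map_pow, map_pow, ← h₁ c c' hc, ← h₂ c c' hc]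
    ring
  | mul_X p i hp =>
    obtain ⟨Q, e, h⟩ := hp
    refine ⟨Q * A i, e + 1, fun c c' hc => ?_⟩
    rw [map_mul, map_mul, ← h c c' hc, ← hc i, aeval_X]
    ring

theorem eval_congr_deg {k : Type u} [Field k] {σ : Type v} (p c : σ → k) (P : MvPolynomial σ k)
    (h : ∀ i, p i ≠ c i → degreeOf i P = 0) : eval p P = eval c P := by
  classical
  rw [eval_eq, eval_eq]
  refine Finset.sum_congr rfl fun d hd => ?_
  congr 1
  refine Finset.prod_congr rfl fun i hi => ?_
  by_cases h1 : p i = c i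
  · rw [h1]
  · exfalso
    have h2 := monomial_le_degreeOf i hd
    rw [h i h1] at h2
    exact Finsupp.mem_support_iff.1 hi (Nat.le_zero.1 h2)

/-- the second point on a line through a point of a quadric -/
theorem param {E : Type u} [Field E] {A : Type v} [Fintype A] (M : Matrix A A E) (hs : M.IsSymm) (uW : E)
    (u : A → E) (hu : uW ^ 2 = u ⬝ᵥ M *ᵥ u) (W : E) (y : A → E) (B φ : E)
    (hB : B = 2 * (uW * W - u ⬝ᵥ M *ᵥ y)) (hφ : φ = W ^ 2 - y ⬝ᵥ M *ᵥ y) :
    (B * W - φ * uW) ^ 2 = (B • y - φ • u) ⬝ᵥ M *ᵥ (B • y - φ • u) := by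
  have hsym : y ⬝ᵥ M *ᵥ u = u ⬝ᵥ M *ᵥ y := by
    rw [dotProduct_mulVec, ← mulVec_transpose, hs.eq, dotProduct_comm]
  simp only [mulVec_sub, mulVec_smul, sub_dotProduct, dotProduct_sub, smul_dotProduct, dotProduct_smul, smul_eq_mul,
    hsym]
  rw [← hu]
  have h1 : y ⬝ᵥ M *ᵥ y = W ^ 2 - φ := by rw [hφ]; ring
  have h2 : 2 * (u ⬝ᵥ M *ᵥ y) = 2 * uW * W - B := by rw [hB]; ring
  rw [h1]
  linear_combination (B * φ) * h2

/-- the homogeneous coordinates of a block -/
noncomputable def Yv {k : Type u} [Field k] {N m : ℕ} (b : Fin N → Fin (m + 1)) :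
    Option {i : Fin N // b i = 0} → MvPolynomial (Fin N) k
  | none => 1
  | some i => X (i : Fin N)

/-- **General rational points of quadric bundles**: if the quadratic forms in two more variables than in the block
have zeros, then there are rational points outside of every divisor. -/
theorem general_pt {F : Type u} [Field F] [CharZero F] {N m : ℕ} (b : Fin N → Fin (m + 1))
    (hq : ∀ φ : MvPolynomial (Option (Option {i : Fin N // b i = 0})) F, φ.IsHomogeneous 2 →
      ∃ a : Option (Option {i : Fin N // b i = 0}) → F, a ≠ 0 ∧ eval a φ = 0)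
    (M : Matrix (Option {i : Fin N // b i = 0}) (Option {i : Fin N // b i = 0}) (MvPolynomial (Fin N) F))
    (hs : M.IsSymm) (hM : ∀ a a' i, b i = 0 → degreeOf i (M a a') = 0) (hdet : M.det ≠ 0)
    (g : MvPolynomial (Fin N) F) (hg : g ≠ 0) :
    ∃ (p : Fin N → F) (v : F), v ^ 2 = eval p (Yv b ⬝ᵥ M *ᵥ Yv b) ∧ eval p g ≠ 0 := by
  classical
  obtain ⟨c, hc⟩ : ∃ c : Fin N → F, eval c (g * M.det) ≠ 0 := by
    by_contra hcon
    push Not at hcon
    exact mul_ne_zero hg hdet (MvPolynomial.funext fun c => by rw [hcon c, map_zero])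
  rw [map_mul] at hc
  have hcg := left_ne_zero_of_mul hc
  have hcd := right_ne_zero_of_mul hc
  obtain ⟨Mc, hMc⟩ : ∃ Mc : Matrix (Option {i : Fin N // b i = 0}) (Option {i : Fin N // b i = 0}) F,
    Mc = (eval c).mapMatrix M := ⟨_, rfl⟩
  have hMcdet : Mc.det ≠ 0 := by
    rw [hMc, ← RingHom.map_det]
    exact hcd
  have hMcs : Mc.IsSymm := by
    rw [hMc]
    exact hs.map _
  -- an isotropic vector
  obtain ⟨ψ, hψ⟩ : ∃ ψ : MvPolynomial (Option (Option {i : Fin N // b i = 0})) F,
    ψ = X none ^ 2 - ∑ a, ∑ a', C (Mc a a') * X (some a) * X (some a') := ⟨_, rfl⟩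
  have hψ2 : ψ.IsHomogeneous 2 := by
    rw [hψ]
    refine (isHomogeneous_X_pow _ _).sub (IsHomogeneous.sum _ _ _ fun a _ => IsHomogeneous.sum _ _ _ fun a' _ => ?_)
    have h1 := ((isHomogeneous_C (Option (Option {i : Fin N // b i = 0})) (Mc a a')).mul
      (isHomogeneous_X F (some a))).mul (isHomogeneous_X F (some a'))
    exact h1
  have hψe : ∀ a : Option (Option {i : Fin N // b i = 0}) → F, eval a ψ = a none ^ 2 -
      (fun i => a (some i)) ⬝ᵥ Mc *ᵥ (fun i => a (some i)) := by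
    intro a
    rw [hψ, map_sub, map_pow, eval_X, map_sum]
    congr 1
    rw [dotProduct]
    refine Finset.sum_congr rfl fun i _ => ?_
    rw [map_sum, mulVec, dotProduct, Finset.mul_sum]
    refine Finset.sum_congr rfl fun j _ => ?_
    rw [map_mul, map_mul, eval_C, eval_X, eval_X]
    ring
  obtain ⟨uu, huu, huu0⟩ := hq ψ hψ2
  rw [hψe, sub_eq_zero] at huu0
  obtain ⟨uW, huW⟩ : ∃ uW, uW = uu none := ⟨_, rfl⟩
  obtain ⟨u, hu⟩ : ∃ u : Option {i : Fin N // b i = 0} → F, u = fun i => uu (some i) := ⟨_, rfl⟩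
  rw [← hu, ← huW] at huu0
  have hu0 : u ≠ 0 := by
    intro h0
    rw [h0, zero_dotProduct] at huu0
    have h1 : uW = 0 := pow_eq_zero_iff (two_ne_zero) |>.1 huu0
    apply huu
    funext i
    rcases i with _ | i
    · rw [← huW, h1]
      rfl
    · have h2 := congrFun h0 i
      rw [hu] at h2
      exact h2
  -- the point of the base outside of the polar hyperplane
  obtain ⟨ℓ, hℓ⟩ : ∃ ℓ : Option {i : Fin N // b i = 0} → F, ℓ = u ᵥ* Mc := ⟨_, rfl⟩
  have hℓ0 : ℓ ≠ 0 := by
    intro h0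
    apply hu0
    rw [hℓ] at h0
    have hun : IsUnit Mc.det := isUnit_iff_ne_zero.2 hMcdet
    have h1 : (u ᵥ* Mc) ᵥ* Mc⁻¹ = u := by
      rw [vecMul_vecMul, mul_nonsing_inv _ hun, vecMul_one]
    rw [← h1, h0, zero_vecMul]
  obtain ⟨Lp, hLp⟩ : ∃ Lp : MvPolynomial (Fin N) F, Lp = C (ℓ none) +
    ∑ i : {i : Fin N // b i = 0}, C (ℓ (some i)) * X (i : Fin N) := ⟨_, rfl⟩
  have hLpe : ∀ a : Fin N → F, eval a Lp = ℓ none + ∑ i : {i : Fin N // b i = 0}, ℓ (some i) * a i := by
    intro a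
    rw [hLp, map_add, eval_C, map_sum]
    congr 1
    refine Finset.sum_congr rfl fun i _ => ?_
    rw [map_mul, eval_C, eval_X]
  have hLp0 : Lp ≠ 0 := by
    intro h0
    have h1 : ∀ a : Fin N → F, ℓ none + ∑ i : {i : Fin N // b i = 0}, ℓ (some i) * a i = 0 := by
      intro a
      rw [← hLpe, h0, map_zero]
    have h2 : ℓ none = 0 := by
      have h3 := h1 0
      simpa using h3
    apply hℓ0
    funext a
    rcases a with _ | a
    · exact h2
    · have h3 := h1 (Pi.single (a : Fin N) 1)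
      rw [h2, zero_add, Finset.sum_eq_single a] at h3
      · simpa using h3
      · intro j _ hj
        rw [Pi.single_eq_of_ne (fun h => hj (Subtype.ext h)), mul_zero]
      · intro h
        exact absurd (Finset.mem_univ a) h
  obtain ⟨gr, hgr⟩ : ∃ gr : MvPolynomial (Fin N) F,
    gr = aeval (fun i => if b i = 0 then X i else C (c i)) g := ⟨_, rfl⟩
  have hgre : ∀ a : Fin N → F, eval a gr = eval (fun i => if b i = 0 then a i else c i) g := by
    intro a
    rw [hgr]
    have h1 := MvPolynomial.comp_aeval_apply (f := fun i => if b i = 0 then (X i : MvPolynomial (Fin N) F) else C (c i))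
      (aeval a : MvPolynomial (Fin N) F →ₐ[F] F) g
    rw [← ae, ← ae]
    refine h1.trans ?_
    congr 2
    funext i
    by_cases h : b i = 0
    · rw [if_pos h, if_pos h, aeval_X]
    · rw [if_neg h, if_neg h, aeval_C]
      rfl
  have hgr0 : gr ≠ 0 := by
    intro h0
    have h1 := hgre c
    rw [h0, map_zero] at h1
    have h2 : (fun i => if b i = 0 then c i else c i) = c := funext fun i => by rw [ite_self]
    rw [h2] at h1
    exact hcg h1.symm
  obtain ⟨c'', hc''⟩ : ∃ c'' : Fin N → F, eval c'' (gr * Lp) ≠ 0 := by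
    by_contra hcon
    push Not at hcon
    exact mul_ne_zero hgr0 hLp0 (MvPolynomial.funext fun c => by rw [hcon c, map_zero])
  rw [map_mul] at hc''
  obtain ⟨c', hc'⟩ : ∃ c' : Fin N → F, c' = fun i => if b i = 0 then c'' i else c i := ⟨_, rfl⟩
  have hc'g : eval c' g ≠ 0 := by
    rw [hc', ← hgre]
    exact left_ne_zero_of_mul hc''
  have hc'L : ℓ none + ∑ i : {i : Fin N // b i = 0}, ℓ (some i) * c' i ≠ 0 := by
    have h1 := right_ne_zero_of_mul hc''
    rw [hLpe] at h1
    have h2 : ∀ i : {i : Fin N // b i = 0}, c' i = c'' i := fun i => by rw [hc']; simp only; rw [if_pos i.2]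
    simp_rw [h2]
    exact h1
  have hc'c : ∀ i, b i ≠ 0 → c' i = c i := fun i hi => by rw [hc']; simp only; rw [if_neg hi]
  -- the parametrisation
  obtain ⟨Bp, hBp⟩ : ∃ Bp : MvPolynomial (Option (Option {i : Fin N // b i = 0})) F,
    Bp = 2 * (C uW * X none - ∑ a, C (ℓ a) * X (some a)) := ⟨_, rfl⟩
  obtain ⟨D, hD⟩ : ∃ D, D = Bp * X (some none) - ψ * C (u none) := ⟨_, rfl⟩
  obtain ⟨A, hA⟩ : ∃ A : Fin N → MvPolynomial (Option (Option {i : Fin N // b i = 0})) F, A = fun i =>
    if h : b i = 0 then Bp * X (some (some ⟨i, h⟩)) - ψ * C (u (some ⟨i, h⟩)) else C (c i) * D := ⟨_, rfl⟩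
  obtain ⟨G', e, hG'⟩ := clearG (σ := Option (Option {i : Fin N // b i = 0})) (τ := Fin N) A D g
  obtain ⟨y0, hy0⟩ : ∃ y0 : Option {i : Fin N // b i = 0} → F, y0 = fun a => eval c' (Yv b a) := ⟨_, rfl⟩
  have hy0n : y0 none = 1 := by
    rw [hy0]
    exact map_one _
  have hy0s : ∀ i : {i : Fin N // b i = 0}, y0 (some i) = c' i := by
    intro i
    rw [hy0]
    exact eval_X _
  have hP : G' * D ≠ 0 := by
    intro h0
    have hΩ : CharZero (AlgebraicClosure F) :=
      charZero_of_injective_algebraMap (algebraMap F (AlgebraicClosure F)).injective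
    obtain ⟨α, hα⟩ : ∃ α : F →+* AlgebraicClosure F, α = algebraMap F (AlgebraicClosure F) := ⟨_, rfl⟩
    obtain ⟨W0, hW0⟩ := IsAlgClosed.exists_pow_nat_eq (α (y0 ⬝ᵥ Mc *ᵥ y0)) (n := 2) two_pos
    obtain ⟨l0, hl0⟩ : ∃ l0, l0 = ∑ a, ℓ a * y0 a := ⟨_, rfl⟩
    have hl1 : α l0 ≠ 0 := by
      rw [Ne, map_eq_zero, hl0, Fintype.sum_option, hy0n, mul_one]
      simp_rw [hy0s]
      exact hc'L
    obtain ⟨W, hW2, hWne⟩ : ∃ W, W ^ 2 = α (y0 ⬝ᵥ Mc *ᵥ y0) ∧ α uW * W - α l0 ≠ 0 := by
      by_cases h1 : α uW * W0 - α l0 = 0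
      · refine ⟨-W0, by rw [neg_sq, hW0], fun h2 => hl1 ?_⟩
        have h3 : (2 : AlgebraicClosure F) * α l0 = 0 := by linear_combination (-1 : AlgebraicClosure F) * h1 - h2
        exact (mul_eq_zero.1 h3).resolve_left two_ne_zero
      · exact ⟨W0, hW0, h1⟩
    obtain ⟨v, hv⟩ : ∃ v : Option (Option {i : Fin N // b i = 0}) → AlgebraicClosure F,
      v = fun t => t.elim W fun a => α (y0 a) := ⟨_, rfl⟩
    have hvn : v none = W := by rw [hv]; rfl
    have hvs : ∀ a, v (some a) = α (y0 a) := fun a => by rw [hv]; rfl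
    have haC : ∀ z : F, aeval v (C z : MvPolynomial (Option (Option {i : Fin N // b i = 0})) F) = α z := by
      intro z
      rw [aeval_C, hα]
    have hβ : aeval v Bp = 2 * (α uW * W - α l0) := by
      rw [hBp, map_mul, map_ofNat, map_sub, map_mul, haC, aeval_X, map_sum, hvn, hl0, map_sum]
      congr 2
      refine Finset.sum_congr rfl fun a _ => ?_
      rw [map_mul, haC, aeval_X, hvs, map_mul]
    have hβ0 : aeval v Bp ≠ 0 := by
      rw [hβ]
      exact mul_ne_zero two_ne_zero hWne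
    have hψ0 : aeval v ψ = 0 := by
      rw [hψ, map_sub, map_pow, aeval_X, hvn, hW2, sub_eq_zero, map_sum, dotProduct, map_sum]
      refine Finset.sum_congr rfl fun a _ => ?_
      rw [map_sum, map_mul, mulVec, dotProduct, map_sum, Finset.mul_sum]
      refine Finset.sum_congr rfl fun a' _ => ?_
      have h10 : aeval v (C (Mc a a') * X (some a) * X (some a') :
          MvPolynomial (Option (Option {i : Fin N // b i = 0})) F) = α (Mc a a') * α (y0 a) * α (y0 a') := by
        rw [map_mul, map_mul, haC, aeval_X, aeval_X, hvs, hvs]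
      rw [h10]
      have h11 : α (Mc a a' * y0 a') = α (Mc a a') * α (y0 a') := map_mul _ _ _
      rw [h11]
      ring
    have hD0 : aeval v D = aeval v Bp := by
      rw [hD, map_sub, map_mul, map_mul, hψ0, aeval_X, hvs, hy0n, map_one, mul_one, zero_mul, sub_zero]
    have h5 := hG' v (fun i => α (c' i)) (by
      intro i
      rw [hA]
      simp only
      by_cases hi : b i = 0
      · rw [dif_pos hi, map_sub, map_mul, map_mul, hψ0, aeval_X, hvs, hy0s, hD0, zero_mul, sub_zero, mul_comm]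
      · rw [dif_neg hi, map_mul, haC, hc'c i hi])
    have h6 : aeval v G' = 0 := by
      have h7 : aeval v (G' * D) = 0 := by rw [h0, map_zero]
      rw [map_mul, hD0] at h7
      exact (mul_eq_zero.1 h7).resolve_right hβ0
    rw [h6, hD0] at h5
    have h8 := (mul_eq_zero.1 h5).resolve_right (pow_ne_zero _ hβ0)
    have h9 : aeval (fun i => α (c' i)) g = α (eval c' g) := by
      rw [hα]
      exact MvPolynomial.aeval_algebraMap_apply (AlgebraicClosure F) c' g
    rw [h9, map_eq_zero] at h8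
    exact hc'g h8
  obtain ⟨v, hv⟩ : ∃ v, eval v (G' * D) ≠ 0 := by
    by_contra hcon
    push Not at hcon
    exact hP (MvPolynomial.funext fun c => by rw [hcon c, map_zero])
  rw [map_mul] at hv
  have hvD := right_ne_zero_of_mul hv
  have hvG := left_ne_zero_of_mul hv
  obtain ⟨p, hp⟩ : ∃ p : Fin N → F, ∀ i, p i * eval v D = eval v (A i) :=
    ⟨fun i => eval v (A i) / eval v D, fun i => div_mul_cancel₀ _ hvD⟩
  have hpg : eval p g ≠ 0 := by
    intro h0
    have h1 := hG' v p hp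
    rw [ae, ae, ae, h0, zero_mul] at h1
    exact hvG h1.symm
  have hpc : ∀ i, b i ≠ 0 → p i = c i := by
    intro i hi
    have h1 := hp i
    rw [hA] at h1
    simp only at h1
    rw [dif_neg hi, map_mul, eval_C] at h1
    exact mul_right_cancel₀ hvD h1
  obtain ⟨W, hW⟩ : ∃ W, W = v none := ⟨_, rfl⟩
  obtain ⟨y, hy⟩ : ∃ y : Option {i : Fin N // b i = 0} → F, y = fun a => v (some a) := ⟨_, rfl⟩
  have hB : eval v Bp = 2 * (uW * W - u ⬝ᵥ Mc *ᵥ y) := by
    rw [hBp, map_mul, map_ofNat, map_sub, map_mul, eval_C, eval_X, map_sum, dotProduct_mulVec, ← hℓ, hW, dotProduct]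
    congr 2
    refine Finset.sum_congr rfl fun a _ => ?_
    rw [map_mul, eval_C, eval_X, hy]
  have hφ : eval v ψ = W ^ 2 - y ⬝ᵥ Mc *ᵥ y := by
    rw [hψe, hW, hy]
  have hpar := param Mc hMcs uW u huu0 W y (eval v Bp) (eval v ψ) hB hφ
  refine ⟨p, (eval v Bp * W - eval v ψ * uW) / eval v D, ?_, hpg⟩
  rw [div_pow, hpar, div_eq_iff (pow_ne_zero 2 hvD)]
  have h2 : ∀ a a', eval p (M a a') = Mc a a' := by
    intro a a'
    rw [hMc]
    change eval p (M a a') = eval c (M a a')
    refine eval_congr_deg p c _ fun i hi => hM a a' i ?_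
    by_contra hb
    exact hi (hpc i hb)
  have h1 : eval v Bp • y - eval v ψ • u = eval v D • (fun a => eval p (Yv b a)) := by
    funext a
    rw [Pi.sub_apply, Pi.smul_apply, Pi.smul_apply, Pi.smul_apply, smul_eq_mul, smul_eq_mul, smul_eq_mul]
    rcases a with _ | i
    · change _ = eval v D * eval p 1
      rw [map_one, mul_one, hD, map_sub, map_mul, map_mul, eval_X, eval_C, hy]
    · change _ = eval v D * eval p (X (i : Fin N))
      rw [eval_X, mul_comm (eval v D), hp, hA]
      simp only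
      rw [dif_pos i.2, map_sub, map_mul, map_mul, eval_X, eval_C, hy]
  have h4 : eval p (Yv b ⬝ᵥ M *ᵥ Yv b) = (fun a => eval p (Yv b a)) ⬝ᵥ Mc *ᵥ (fun a => eval p (Yv b a)) := by
    rw [dotProduct, map_sum, dotProduct]
    refine Finset.sum_congr rfl fun a _ => ?_
    rw [map_mul, mulVec, dotProduct, map_sum, mulVec, dotProduct]
    congr 1
    refine Finset.sum_congr rfl fun a' _ => ?_
    rw [map_mul, h2]
  rw [h1, mulVec_smul, smul_dotProduct, dotProduct_smul, smul_eq_mul, smul_eq_mul, h4]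
  ring

end Pool.Agent.N230.FC
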