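import Pool.Agent.N230.FC.Fin
import Pool.Agent.N230.FC.QPt
import Pool.Agent.N230.FC.LangF

/-!
# Quadric bundles over bases of small dimension
-/

set_option autoImplicit false

namespace Pool.Agent.N230.FC

open MvPolynomial Matrix

universe u v w

/-- Quadric bundles over a base of dimension `r`, with fibres given by quadratic polynomials in more than `2 ^ r - 2`
variables. -/
theorem dom_of_big {k F K : Type} [Field k] [IsAlgClosed k] [Field F] [CharZero F] [Algebra k F] {N m : ℕ}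
    (b : Fin N → Fin (m + 1)) {f : MvPolynomial (Fin N) F} (hf : Irreducible f)
    (h2 : ∀ d ∈ f.support, ∑ i with b i = 0, d i ≤ 2)
    (h4 : ∀ d ∈ f.support, ∀ j : Fin m, ∑ i with b i = j.succ, d i ≤ 4)
    (h0 : ∃ i, b i = 0 ∧ degreeOf i f ≠ 0) {r : ℕ} (hr : Algebra.trdeg k F ≤ r)
    (hcard : 2 ^ r < Fintype.card {i : Fin N // b i = 0} + 2)
    (M : Matrix (Option {i : Fin N // b i = 0}) (Option {i : Fin N // b i = 0}) (MvPolynomial (Fin N) F))
    (hs : M.IsSymm) (hM : ∀ a a' i, b i = 0 → degreeOf i (M a a') = 0) (hdet : M.det ≠ 0)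
    (hfM : f = Yv b ⬝ᵥ M *ᵥ Yv b)
    [Field K] [Algebra F K] {x : Fin N → K} (hx : AlgebraicIndependent F x) {w : K}
    (hw : w ^ 2 = aeval x f) (hK : IntermediateField.adjoin F (insert w (Set.range x)) = ⊤) :
    ∃ n, Nonempty (K →ₐ[F] FractionRing (MvPolynomial (Fin n) F)) := by
  obtain ⟨g, hg, h⟩ := dom_of_pt b hf h2 h4 h0 hx hw hK
  obtain ⟨p, v, hv, hpg⟩ := general_pt b (fun φ hφ => quad_zero r hr φ hφ (by
    rw [Fintype.card_option, Fintype.card_option]
    exact hcard)) M hs hM hdet g hg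
  exact h ⟨p, v, by rw [hv, hfM], hpg⟩

end Pool.Agent.N230.FC
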