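import Pool.Agent.R867.H.DensH

/-!
# Elimination of a variable on a hypersurface
-/

set_option autoImplicit false

namespace Pool.Agent.N230.FC

open MvPolynomial Pool.Agent.R867.Mov Pool.Agent.R867.H Pool.Agent.R867.D

universe u

theorem elim {k : Type u} [Field k] {N : ℕ} {f g : MvPolynomial (Fin N) k} (hirr : Irreducible f) {l : Fin N}
    (hl : degreeOf l f ≠ 0) (hg : ¬ f ∣ g) :
    ∃ R t : MvPolynomial (Fin N) k, R ≠ 0 ∧ degreeOf l R = 0 ∧ f ∣ g * t - R := by
  classical
  obtain ⟨K, _, _, x, hξ⟩ := exists_gp hirr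
  have hf := hirr.ne_zero
  have h2 : x '' {i | i ≠ l} = Set.range (fun i : {i : Fin N // i ≠ l} => x i) := by
    ext; simp
  have hKa : Algebra.IsAlgebraic (Algebra.adjoin k (x '' {i | i ≠ l})) K := ⟨fun z => mem_cl_ne hξ hf hl z⟩
  have hne : aeval x g ≠ 0 := fun h => hg ((hξ.zero_iff g).1 h)
  obtain ⟨t, ht, r, hr, hr'⟩ := (hKa.isAlgebraic (aeval x g)).exists_nonzero_eq_adjoin_mul
    (mem_nonZeroDivisors_of_ne_zero hne)
  have hrange : ∀ r : Algebra.adjoin k (x '' {i | i ≠ l}), ∃ R : MvPolynomial {i : Fin N // i ≠ l} k,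
      aeval (fun i : {i : Fin N // i ≠ l} => x i) R = (r : K) := by
    intro r
    have h3 : (r : K) ∈ Algebra.adjoin k (Set.range (fun i : {i : Fin N // i ≠ l} => x i)) := by
      rw [← h2]
      exact r.2
    rw [Algebra.adjoin_range_eq_range_aeval] at h3
    exact h3
  have htA : ∃ A : MvPolynomial (Fin N) k, aeval x A = t := by
    clear hr'
    induction ht using Algebra.adjoin_induction with
    | mem z hz =>
      rw [Set.mem_singleton_iff] at hz
      exact ⟨g, hz.symm⟩
    | algebraMap r =>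
      obtain ⟨R, hR⟩ := hrange r
      refine ⟨rename Subtype.val R, ?_⟩
      rw [aeval_rename]
      exact hR
    | add a b _ _ ha hb =>
      obtain ⟨A, hA⟩ := ha
      obtain ⟨B, hB⟩ := hb
      exact ⟨A + B, by rw [map_add, hA, hB]⟩
    | mul a b _ _ ha hb =>
      obtain ⟨A, hA⟩ := ha
      obtain ⟨B, hB⟩ := hb
      exact ⟨A * B, by rw [map_mul, hA, hB]⟩
  obtain ⟨A, hA⟩ := htA
  obtain ⟨R, hR⟩ := hrange r
  refine ⟨rename Subtype.val R, A, ?_, ?_, ?_⟩
  · intro h0
    apply hr
    apply Subtype.ext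
    rw [← hR]
    have h3 : R = 0 := by
      apply rename_injective _ Subtype.val_injective
      rw [h0, map_zero]
    rw [h3, map_zero]
    rfl
  · exact degreeOf_rename_zero (S := {i | i ≠ l}) R (fun h => h rfl)
  · refine (hξ.zero_iff _).1 ?_
    rw [map_sub, map_mul, aeval_rename, hA, hr']
    change _ - aeval (fun i : {i : Fin N // i ≠ l} => x i) R = 0
    rw [hR]
    exact sub_self _

end Pool.Agent.N230.FC
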