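import Mathlib
import Pool.Agent.R867.Mov.Spec

/-!
# Potential density in terms of generic points
-/

set_option autoImplicit false

namespace Pool.Agent.N230.FC

open MvPolynomial

universe u v w

section

variable {k : Type u} [Field k]

/-- `p` is a point, with coordinates in `k`, of the affine variety with the generic point `x`. -/
def IsPt {K : Type v} [Field K] [Algebra k K] {M : ℕ} (x : Fin M → K) (p : Fin M → k) : Prop :=
  ∀ H : MvPolynomial (Fin M) k, aeval x H = 0 → eval p H = 0

/-- The points with coordinates in some finitely generated subfield of `k` are dense. -/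
def PotDense (k : Type u) [Field k] {K : Type v} [Field K] [Algebra k K] {M : ℕ} (x : Fin M → K) : Prop :=
  ∃ T : Finset k, ∀ G : MvPolynomial (Fin M) k, aeval x G ≠ 0 →
    ∃ p : Fin M → k, (∀ i, p i ∈ Subfield.closure (T : Set k)) ∧ IsPt x p ∧ eval p G ≠ 0

theorem frac {K : Type v} [Field K] [Algebra k K] {N : ℕ} {x : Fin N → K}
    (hx : IntermediateField.adjoin k (Set.range x) = ⊤) (f : K) :
    ∃ P Q : MvPolynomial (Fin N) k, aeval x Q ≠ 0 ∧ f * aeval x Q = aeval x P := by
  have hf : f ∈ IntermediateField.adjoin k (Set.range x) := by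
    rw [hx]; trivial
  rw [IntermediateField.mem_adjoin_range_iff] at hf
  obtain ⟨r, s, hrs⟩ := hf
  by_cases hs : aeval x s = 0
  · refine ⟨0, 1, by rw [map_one]; exact one_ne_zero, ?_⟩
    rw [hs, div_zero] at hrs
    rw [hrs, zero_mul, map_zero]
  · exact ⟨r, s, hs, by rw [hrs, div_mul_cancel₀ _ hs]⟩

/-- common denominators -/
theorem frac_all {K : Type v} [Field K] [Algebra k K] {N M : ℕ} {x : Fin N → K}
    (hx : IntermediateField.adjoin k (Set.range x) = ⊤) (z : Fin M → K) :
    ∃ (A : Fin M → MvPolynomial (Fin N) k) (D : MvPolynomial (Fin N) k), aeval x D ≠ 0 ∧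
      ∀ j, z j * aeval x D = aeval x (A j) := by
  classical
  choose P Q hQ hP using fun j => frac hx (z j)
  refine ⟨fun j => P j * ∏ i ∈ Finset.univ.erase j, Q i, ∏ i, Q i, ?_, fun j => ?_⟩
  · rw [map_prod]
    exact Finset.prod_ne_zero_iff.2 fun j _ => hQ j
  · rw [map_mul, ← hP j, ← Finset.mul_prod_erase Finset.univ Q (Finset.mem_univ j), map_mul]
    ring

/-- clearing denominators -/
theorem clear {N M : ℕ} (A : Fin M → MvPolynomial (Fin N) k) (D : MvPolynomial (Fin N) k)
    (G : MvPolynomial (Fin M) k) : ∃ (G' : MvPolynomial (Fin N) k) (e : ℕ),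
      (∀ {E : Type v} [Field E] [Algebra k E] (c : Fin N → E) (c' : Fin M → E),
        (∀ j, c' j * aeval c D = aeval c (A j)) → aeval c' G * aeval c D ^ e = aeval c G') ∧
      ∀ (c : Fin N → k) (c' : Fin M → k),
        (∀ j, c' j * eval c D = eval c (A j)) → eval c' G * eval c D ^ e = eval c G' := by
  induction G using MvPolynomial.induction_on with
  | C a =>
    refine ⟨C a, 0, fun c c' _ => ?_, fun c c' _ => ?_⟩
    · rw [aeval_C, aeval_C, pow_zero, mul_one]
    · rw [eval_C, eval_C, pow_zero, mul_one]
  | add p q hp hq =>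
    obtain ⟨Q₁, e₁, h₁, h₁'⟩ := hp
    obtain ⟨Q₂, e₂, h₂, h₂'⟩ := hq
    refine ⟨Q₁ * D ^ e₂ + Q₂ * D ^ e₁, e₁ + e₂, fun c c' hc => ?_, fun c c' hc => ?_⟩
    · rw [map_add, map_add, map_mul, map_mul, map_pow, map_pow, ← h₁ c c' hc, ← h₂ c c' hc]
      ring
    · rw [map_add, map_add, map_mul, map_mul, map_pow, map_pow, ← h₁' c c' hc, ← h₂' c c' hc]
      ring
  | mul_X p i hp =>
    obtain ⟨Q, e, h, h'⟩ := hp
    refine ⟨Q * A i, e + 1, fun c c' hc => ?_, fun c c' hc => ?_⟩
    · rw [map_mul, map_mul, ← h c c' hc, ← hc i, aeval_X]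
      ring
    · rw [map_mul, map_mul, ← h' c c' hc, ← hc i, eval_X]
      ring

/-- **Images of potentially dense varieties are potentially dense.** -/
theorem PotDense.of_hom {K K' : Type v} [Field K] [Algebra k K] [Field K'] [Algebra k K'] {M M' : ℕ}
    {x : Fin M → K} (hx : IntermediateField.adjoin k (Set.range x) = ⊤) (x' : Fin M' → K') (σ : K' →ₐ[k] K)
    (h : PotDense k x) : PotDense k x' := by
  classical
  obtain ⟨T, hT⟩ := h
  obtain ⟨A, D, hD, hA⟩ := frac_all hx (fun j => σ (x' j))
  refine ⟨T ∪ D.support.image D.coeff ∪ Finset.univ.biUnion (fun j => (A j).support.image (A j).coeff),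
    fun G hG => ?_⟩
  obtain ⟨G', e, hG', hG''⟩ := clear (k := k) A D G
  have hσ : ∀ H : MvPolynomial (Fin M') k, aeval (fun j => σ (x' j)) H = σ (aeval x' H) := fun H =>
    (MvPolynomial.comp_aeval_apply (f := x') σ H).symm
  have hne : aeval x (G' * D) ≠ 0 := by
    rw [map_mul, ← hG' x _ hA, hσ]
    refine mul_ne_zero (mul_ne_zero ?_ (pow_ne_zero _ hD)) hD
    rw [Ne, map_eq_zero]
    exact hG
  obtain ⟨p, hpT, hpx, hpG⟩ := hT _ hne
  rw [map_mul] at hpG
  have hpD : eval p D ≠ 0 := right_ne_zero_of_mul hpG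
  have hc : ∀ j, (eval p (A j) / eval p D) * eval p D = eval p (A j) := fun j => div_mul_cancel₀ _ hpD
  have hcl : ∀ P : MvPolynomial (Fin M) k, (∀ d ∈ P.support, P.coeff d ∈ T ∪ D.support.image D.coeff ∪
      Finset.univ.biUnion (fun j => (A j).support.image (A j).coeff)) →
      eval p P ∈ Subfield.closure ((T ∪ D.support.image D.coeff ∪
        Finset.univ.biUnion (fun j => (A j).support.image (A j).coeff) : Finset k) : Set k) := by
    intro P hP
    rw [MvPolynomial.eval_eq]
    refine sum_mem fun d hd => mul_mem (Subfield.subset_closure (hP d hd)) (prod_mem fun i _ => pow_mem ?_ _)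
    refine Subfield.closure_mono ?_ (hpT i)
    intro c hc
    exact Finset.mem_coe.2 (Finset.mem_union_left _ (Finset.mem_union_left _ (Finset.mem_coe.1 hc)))
  refine ⟨fun j => eval p (A j) / eval p D, fun j => div_mem (hcl _ fun d hd => ?_) (hcl _ fun d hd => ?_),
    fun H hH => ?_, ?_⟩
  · exact Finset.mem_union_right _ (Finset.mem_biUnion.2 ⟨j, Finset.mem_univ _, Finset.mem_image_of_mem _ hd⟩)
  · exact Finset.mem_union_left _ (Finset.mem_union_right _ (Finset.mem_image_of_mem _ hd))
  · obtain ⟨H', e', hH', hH''⟩ := clear (k := k) A D H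
    have h1 := hH' x _ hA
    rw [hσ, hH, map_zero, zero_mul] at h1
    have h2 := hH'' p _ hc
    rw [hpx _ h1.symm] at h2
    exact (mul_eq_zero.1 h2).resolve_right (pow_ne_zero _ hpD)
  · intro h0
    have h2 := hG'' p _ hc
    rw [h0, zero_mul] at h2
    exact left_ne_zero_of_mul hpG h2.symm

/-- the generic point of the product with an affine space -/
noncomputable def prodPt {F : Type v} [Field F] {M : ℕ} (y : Fin M → F) (m : ℕ) :
    Fin (M + m) → FractionRing (MvPolynomial (Fin m) F) :=
  Fin.append (fun i => algebraMap F _ (y i)) (fun j => algebraMap (MvPolynomial (Fin m) F) _ (X j))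

/-- polynomials in two groups of variables -/
noncomputable def tw (k : Type u) [Field k] (M m : ℕ) :
    MvPolynomial (Fin (M + m)) k →ₐ[k] MvPolynomial (Fin m) (MvPolynomial (Fin M) k) :=
  aeval (Fin.append (fun i => C (X i)) (fun j => X j))

theorem tw_gen {F : Type v} [Field F] [Algebra k F] {M : ℕ} (y : Fin M → F) (m : ℕ)
    (G : MvPolynomial (Fin (M + m)) k) :
    aeval (prodPt y m) G = algebraMap (MvPolynomial (Fin m) F) (FractionRing (MvPolynomial (Fin m) F))
      (map ((aeval y : MvPolynomial (Fin M) k →ₐ[k] F) : MvPolynomial (Fin M) k →+* F) (tw k M m G)) := by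
  induction G using MvPolynomial.induction_on with
  | C a =>
    have h1 : tw k M m (C a) = C (C a) := by
      rw [tw, aeval_C]
      rfl
    have h2 : ((aeval y : MvPolynomial (Fin M) k →ₐ[k] F) : MvPolynomial (Fin M) k →+* F) (C a) =
        algebraMap k F a := aeval_C y a
    rw [h1, map_C, h2, aeval_C, IsScalarTower.algebraMap_apply k F,
      IsScalarTower.algebraMap_apply F (MvPolynomial (Fin m) F)]
    rfl
  | add p q hp hq => rw [map_add, map_add, map_add, map_add, hp, hq]
  | mul_X p i hp =>
    rw [map_mul, map_mul, map_mul, map_mul, hp, aeval_X]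
    congr 1
    refine Fin.addCases (fun i => ?_) (fun j => ?_) i
    · rw [prodPt, Fin.append_left, tw, aeval_X, Fin.append_left, map_C,
        IsScalarTower.algebraMap_apply F (MvPolynomial (Fin m) F)]
      congr 2
      exact (aeval_X y i).symm
    · rw [prodPt, Fin.append_right, tw, aeval_X, Fin.append_right, map_X]

theorem tw_pt {M m : ℕ} (p : Fin M → k) (t : Fin m → k) (G : MvPolynomial (Fin (M + m)) k) :
    eval (Fin.append p t) G = eval t (map (eval p) (tw k M m G)) := by
  induction G using MvPolynomial.induction_on with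
  | C a =>
    have h1 : tw k M m (C a) = C (C a) := by
      rw [tw, aeval_C]
      rfl
    rw [h1, map_C, eval_C, eval_C, eval_C]
  | add p q hp hq => rw [map_add, map_add, map_add, map_add, hp, hq]
  | mul_X p i hp =>
    rw [map_mul, map_mul, map_mul, map_mul, hp, eval_X]
    congr 1
    refine Fin.addCases (fun i => ?_) (fun j => ?_) i
    · rw [Fin.append_left, tw, aeval_X, Fin.append_left, map_C, eval_C, eval_X]
    · rw [Fin.append_right, tw, aeval_X, Fin.append_right, map_X, eval_X]

/-- **Products with affine spaces.** -/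
theorem PotDense.prod [CharZero k] {F : Type v} [Field F] [Algebra k F] {M : ℕ} {y : Fin M → F}
    (h : PotDense k y) (m : ℕ) : PotDense k (prodPt y m) := by
  have hcF : CharZero F := charZero_of_injective_algebraMap (algebraMap k F).injective
  obtain ⟨T, hT⟩ := h
  refine ⟨T, fun G hG => ?_⟩
  rw [tw_gen] at hG
  have hG0 : map ((aeval y : MvPolynomial (Fin M) k →ₐ[k] F) : MvPolynomial (Fin M) k →+* F) (tw k M m G) ≠ 0 := by
    intro h0
    exact hG (by rw [h0, map_zero])
  obtain ⟨t, ht⟩ : ∃ t : Fin m → ℕ, eval (fun j => (t j : F))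
      (map ((aeval y : MvPolynomial (Fin M) k →ₐ[k] F) : MvPolynomial (Fin M) k →+* F) (tw k M m G)) ≠ 0 := by
    by_contra hcon
    push Not at hcon
    refine hG0 (MvPolynomial.funext_set (fun _ => Set.range (Nat.cast : ℕ → F))
      (fun _ => Set.infinite_range_of_injective Nat.cast_injective) fun a ha => ?_)
    choose c hc using fun j => ha j (Set.mem_univ j)
    rw [map_zero, ← hcon c]
    congr 2
    funext j
    exact (hc j).symm
  obtain ⟨g, hg⟩ : ∃ g : MvPolynomial (Fin M) k, g = eval (fun j => (t j : MvPolynomial (Fin M) k)) (tw k M m G) :=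
    ⟨_, rfl⟩
  have key : ∀ {R : Type v} [CommRing R] (φ : MvPolynomial (Fin M) k →+* R)
      (H : MvPolynomial (Fin m) (MvPolynomial (Fin M) k)),
      φ (eval (fun j => (t j : MvPolynomial (Fin M) k)) H) = eval (fun j => (t j : R)) (map φ H) := by
    intro R _ φ H
    induction H using MvPolynomial.induction_on with
    | C a => rw [eval_C, map_C, eval_C]
    | add p q hp hq => rw [map_add, map_add, map_add, map_add, hp, hq]
    | mul_X p j hp => rw [map_mul, map_mul, map_mul, map_mul, hp, eval_X, map_X, eval_X, map_natCast]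
  have key' : ∀ (φ : MvPolynomial (Fin M) k →+* k) (H : MvPolynomial (Fin m) (MvPolynomial (Fin M) k)),
      φ (eval (fun j => (t j : MvPolynomial (Fin M) k)) H) = eval (fun j => (t j : k)) (map φ H) := by
    intro φ H
    induction H using MvPolynomial.induction_on with
    | C a => rw [eval_C, map_C, eval_C]
    | add p q hp hq => rw [map_add, map_add, map_add, map_add, hp, hq]
    | mul_X p j hp => rw [map_mul, map_mul, map_mul, map_mul, hp, eval_X, map_X, eval_X, map_natCast]
  have hgy : aeval y g ≠ 0 := by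
    rw [hg]
    have h1 := key ((aeval y : MvPolynomial (Fin M) k →ₐ[k] F) : MvPolynomial (Fin M) k →+* F) (tw k M m G)
    rw [← h1] at ht
    exact ht
  obtain ⟨p, hpT, hpy, hpg⟩ := hT g hgy
  refine ⟨Fin.append p (fun j => (t j : k)), fun i => ?_, fun H hH => ?_, ?_⟩
  · refine Fin.addCases (fun i => ?_) (fun j => ?_) i
    · rw [Fin.append_left]
      exact hpT i
    · rw [Fin.append_right]
      exact natCast_mem _ _
  · rw [tw_gen, map_eq_zero_iff _ (IsFractionRing.injective (MvPolynomial (Fin m) F) _)] at hH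
    rw [tw_pt, ← key' (eval p) (tw k M m H)]
    refine hpy _ ?_
    have h1 := key ((aeval y : MvPolynomial (Fin M) k →ₐ[k] F) : MvPolynomial (Fin M) k →+* F) (tw k M m H)
    rw [hH, map_zero] at h1
    exact h1
  · rw [tw_pt, ← key' (eval p) (tw k M m G), ← hg]
    exact hpg

theorem prodPt_gen {F : Type v} [Field F] [Algebra k F] {M : ℕ} {y : Fin M → F}
    (hy : IntermediateField.adjoin k (Set.range y) = ⊤) (m : ℕ) :
    IntermediateField.adjoin k (Set.range (prodPt y m)) = ⊤ := by
  obtain ⟨E, hE⟩ : ∃ E : IntermediateField k (FractionRing (MvPolynomial (Fin m) F)),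
      E = IntermediateField.adjoin k (Set.range (prodPt y m)) := ⟨_, rfl⟩
  have h1 : ∀ z : F, algebraMap F (FractionRing (MvPolynomial (Fin m) F)) z ∈ E := by
    intro z
    obtain ⟨P, Q, hQ, hP⟩ := frac hy z
    have h2 : ∀ R : MvPolynomial (Fin M) k, algebraMap F (FractionRing (MvPolynomial (Fin m) F)) (aeval y R) ∈ E := by
      intro R
      induction R using MvPolynomial.induction_on with
      | C a =>
        rw [aeval_C, ← IsScalarTower.algebraMap_apply]
        exact E.algebraMap_mem a
      | add p q hp hq =>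
        rw [map_add, map_add]
        exact add_mem hp hq
      | mul_X p i hp =>
        rw [map_mul, map_mul, aeval_X]
        refine mul_mem hp ?_
        rw [hE]
        refine IntermediateField.subset_adjoin _ _ ⟨Fin.castAdd m i, ?_⟩
        rw [prodPt, Fin.append_left]
    have h3 : z = aeval y P / aeval y Q := by
      rw [eq_div_iff hQ, hP]
    rw [h3, map_div₀]
    exact div_mem (h2 P) (h2 Q)
  have h2 : ∀ R : MvPolynomial (Fin m) F, algebraMap (MvPolynomial (Fin m) F) (FractionRing (MvPolynomial (Fin m) F)) R ∈ E := by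
    intro R
    induction R using MvPolynomial.induction_on with
    | C a => exact h1 a
    | add p q hp hq =>
      rw [map_add]
      exact add_mem hp hq
    | mul_X p j hp =>
      rw [map_mul]
      refine mul_mem hp ?_
      rw [hE]
      refine IntermediateField.subset_adjoin _ _ ⟨Fin.natAdd M j, ?_⟩
      rw [prodPt, Fin.append_right]
  rw [← hE, eq_top_iff]
  intro z _
  obtain ⟨p, q, hq, rfl⟩ := IsFractionRing.div_surjective (A := MvPolynomial (Fin m) F) z
  exact div_mem (h2 p) (h2 q)

/-- **Potential density is the same for a variety and for one dominated by its products with affine spaces.** -/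
theorem pd_iff [CharZero k] {F K : Type v} [Field F] [Algebra k F] [Field K] [Algebra k K] [Algebra F K]
    [IsScalarTower k F K] {M M' : ℕ} {y : Fin M → F} (hy : IntermediateField.adjoin k (Set.range y) = ⊤)
    {z : Fin M' → K} (hz : IntermediateField.adjoin k (Set.range z) = ⊤) {m : ℕ}
    (σ : K →ₐ[F] FractionRing (MvPolynomial (Fin m) F)) : PotDense k z ↔ PotDense k y :=
  ⟨fun h => h.of_hom hz y (IsScalarTower.toAlgHom k F K),
    fun h => (h.prod m).of_hom (prodPt_gen hy m) z (σ.restrictScalars k)⟩

end

end Pool.Agent.N230.FC
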