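import Pool.Agent.N230.FC.GenPt
import Pool.Agent.N230.FC.PD
import Pool.Agent.R867.Mov.Alg

/-!
# Double covers over curves
-/

set_option autoImplicit false

namespace Pool.Agent.N230.FC

open MvPolynomial

universe u v w

theorem not_sq {F : Type u} [Field F] {N : ℕ} {f : MvPolynomial (Fin N) F} (hf : Irreducible f)
    (c : MvPolynomial (Fin N) F) : c ^ 2 ≠ f := by
  rintro rfl
  rw [sq] at hf
  rcases hf.isUnit_or_isUnit rfl with h | h
  · exact hf.not_isUnit (h.mul h)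
  · exact hf.not_isUnit (h.mul h)

/-- Generic points of double covers. -/
theorem emb {F : Type u} {K : Type v} {E : Type w} [Field F] [Field K] [Algebra F K] [Field E] [Algebra F E] {N : ℕ}
    {f : MvPolynomial (Fin N) F} (hf : Irreducible f) {x : Fin N → K} (hx : AlgebraicIndependent F x) {w : K}
    (hw : w ^ 2 = aeval x f) (hK : IntermediateField.adjoin F (insert w (Set.range x)) = ⊤)
    {x' : Fin N → E} (hx' : AlgebraicIndependent F x') {w' : E} (hw' : w' ^ 2 = aeval x' f) :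
    Nonempty (K →ₐ[F] E) := by
  obtain ⟨σ, -⟩ := Pool.Agent.R867.Mov.embedG
    (aeval (Fin.cons w x : Fin (N + 1) → K) : MvPolynomial (Fin (N + 1)) F →ₐ[F] K)
    (aeval (Fin.cons w' x' : Fin (N + 1) → E) : MvPolynomial (Fin (N + 1)) F →ₐ[F] E) (fun P => by
      rw [Pool.Agent.Y200.QB.kernel f (not_sq hf) x hx w hw P,
        Pool.Agent.Y200.QB.kernel f (not_sq hf) x' hx' w' hw' P]) (fun z => by
      obtain ⟨P, Q, h1, h2⟩ := frac (x := (Fin.cons w x : Fin (N + 1) → K)) (by rw [Fin.range_cons, hK]) z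
      exact ⟨P, Q, h1, h2⟩)
  exact ⟨σ⟩

/-- **Conics over function fields of curves.** -/
theorem conic_trdeg {k F : Type u} [Field k] [IsAlgClosed k] [Field F] [CharZero F] [Algebra k F]
    (h : Algebra.trdeg k F ≤ 1) (A B D : F) (hA : A ≠ 0) : ∃ t y : F, y ^ 2 = A * t ^ 2 + B * t + D := by
  obtain ⟨ι, b, hb⟩ := exists_isTranscendenceBasis' k F
  have hc := hb.cardinalMk_eq_trdeg
  rw [← hc] at h
  have hsub : Subsingleton ι := Cardinal.le_one_iff_subsingleton.1 h
  have halg := hb.isAlgebraic_field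
  rcases isEmpty_or_nonempty ι with he | ⟨⟨i⟩⟩
  · have h2 : Algebra.IsAlgebraic k F := hb.isEmpty_iff_isAlgebraic.1 he
    obtain ⟨c, hc'⟩ := (IsAlgClosed.algebraMap_bijective_of_isIntegral (k := k) (K := F)).2 D
    obtain ⟨d, hd⟩ := IsAlgClosed.exists_pow_nat_eq c (n := 2) two_pos
    refine ⟨0, algebraMap k F d, ?_⟩
    rw [← map_pow, hd, hc']
    ring
  · have h1 : Set.range b = {b i} := by
      ext z
      constructor
      · rintro ⟨j, rfl⟩
        rw [Subsingleton.elim j i]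
        rfl
      · rintro rfl
        exact ⟨i, rfl⟩
    rw [h1] at halg
    exact conic_pt (b i) (hb.1.transcendental i) halg A B D hA

/-- `w² = f(x)` over a field over which the conics have points. -/
theorem dom_of_conic {F : Type u} {K : Type v} [Field F] [CharZero F]
    (hC : ∀ A B D : F, A ≠ 0 → ∃ t y : F, y ^ 2 = A * t ^ 2 + B * t + D) {N m : ℕ}
    (b : Fin N → Fin (m + 1)) {f : MvPolynomial (Fin N) F} (hf : Irreducible f)
    (h2 : ∀ d ∈ f.support, ∑ i with b i = 0, d i ≤ 2)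
    (h4 : ∀ d ∈ f.support, ∀ j : Fin m, ∑ i with b i = j.succ, d i ≤ 4)
    (h0 : ∃ i, b i = 0 ∧ degreeOf i f ≠ 0)
    [Field K] [Algebra F K] {x : Fin N → K} (hx : AlgebraicIndependent F x) {w : K}
    (hw : w ^ 2 = aeval x f) (hK : IntermediateField.adjoin F (insert w (Set.range x)) = ⊤) :
    ∃ n, Nonempty (K →ₐ[F] FractionRing (MvPolynomial (Fin n) F)) := by
  obtain ⟨n, x', w', hw', hx'⟩ := uni hC b f hf h2 h4 h0
  exact ⟨n, emb hf hx hw hK hx' hw'⟩

/-- `w² = f(x)` with a general point. -/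
theorem dom_of_pt {F : Type u} {K : Type v} [Field F] [CharZero F] {N m : ℕ}
    (b : Fin N → Fin (m + 1)) {f : MvPolynomial (Fin N) F} (hf : Irreducible f)
    (h2 : ∀ d ∈ f.support, ∑ i with b i = 0, d i ≤ 2)
    (h4 : ∀ d ∈ f.support, ∀ j : Fin m, ∑ i with b i = j.succ, d i ≤ 4)
    (h0 : ∃ i, b i = 0 ∧ degreeOf i f ≠ 0)
    [Field K] [Algebra F K] {x : Fin N → K} (hx : AlgebraicIndependent F x) {w : K}
    (hw : w ^ 2 = aeval x f) (hK : IntermediateField.adjoin F (insert w (Set.range x)) = ⊤) :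
    ∃ g : MvPolynomial (Fin N) F, g ≠ 0 ∧ ((∃ (p : Fin N → F) (v : F), v ^ 2 = eval p f ∧ eval p g ≠ 0) →
      ∃ n, Nonempty (K →ₐ[F] FractionRing (MvPolynomial (Fin n) F))) := by
  obtain ⟨g, hg, hmain⟩ := uni_pt b f hf h2 h4 h0
  refine ⟨g, hg, ?_⟩
  rintro ⟨p, v, hv, hpg⟩
  obtain ⟨n, x', w', hw', hx'⟩ := hmain p v hv hpg
  exact ⟨n, emb hf hx hw hK hx' hw'⟩

end Pool.Agent.N230.FC
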