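import Pool.Agent.N230.FC.Quad

/-!
# Unirationality of double covers with a general rational point
-/

set_option autoImplicit false

namespace Pool.Agent.N230.FC

open MvPolynomial Pool.Agent.Y200.QB

universe u v w

/-- Double covers of multidegree `(2; 4, …, 4)` over any field of characteristic zero with a general rational point are
unirational. -/
theorem uni_pt {F : Type u} [Field F] [CharZero F] {N m : ℕ}
    (b : Fin N → Fin (m + 1)) (Q : MvPolynomial (Fin N) F) (hQ : Irreducible Q)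
    (h2 : ∀ d ∈ Q.support, ∑ i with b i = 0, d i ≤ 2)
    (h4 : ∀ d ∈ Q.support, ∀ j : Fin m, ∑ i with b i = j.succ, d i ≤ 4)
    (h0 : ∃ i, b i = 0 ∧ degreeOf i Q ≠ 0) :
    ∃ g : MvPolynomial (Fin N) F, g ≠ 0 ∧ ∀ (p : Fin N → F) (y0 : F), y0 ^ 2 = eval p Q → eval p g ≠ 0 →
      ∃ (n : ℕ) (w : Fin N → FractionRing (MvPolynomial (Fin n) F))
        (y : FractionRing (MvPolynomial (Fin n) F)), y ^ 2 = aeval w Q ∧ AlgebraicIndependent F w := by
  classical
  obtain ⟨i0, hb0, hi0⟩ := h0
  have h01 : pderiv i0 Q ≠ 0 := Pool.Agent.Y200.QB.pderiv_ne_zero _ _ hi0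
  by_cases h00 : pderiv i0 (pderiv i0 Q) = 0
  · obtain ⟨w, y, h⟩ := top_linear Q i0 h01 h00
    exact ⟨1, one_ne_zero, fun _ _ _ _ => ⟨N, w, y, h⟩⟩
  obtain ⟨hasv, hhasv⟩ : ∃ hasv : Fin m → Prop,
      hasv = fun j => ∃ i, b i = j.succ ∧ degreeOf i Q ≠ 0 := ⟨_, rfl⟩
  have hex : ∀ j : Fin m, ∃ i : Fin N, hasv j → (b i = j.succ ∧ degreeOf i Q ≠ 0) := by
    intro j
    by_cases h : hasv j
    · have h' := h
      rw [hhasv] at h'
      obtain ⟨i, hi⟩ := h'
      exact ⟨i, fun _ => hi⟩
    · exact ⟨i0, fun h' => absurd h' h⟩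
  choose ch hch using hex
  obtain ⟨e, he⟩ : ∃ e : Fin N → F,
      e = fun i => if i = i0 ∨ ∃ j, hasv j ∧ ch j = i then 1 else 0 := ⟨_, rfl⟩
  have he0 : ∀ i, (if b i = 0 then e i else 0) = if i = i0 then 1 else 0 := by
    intro i
    by_cases hi : i = i0
    · rw [if_pos hi, hi, if_pos hb0, he]
      simp
    · rw [if_neg hi]
      by_cases hbi : b i = 0
      · rw [if_pos hbi, he]
        simp only
        rw [if_neg]
        rintro (h | ⟨j, hj, hj'⟩)
        · exact hi h
        · have h1 := (hch j hj).1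
          rw [hj', hbi] at h1
          exact (Fin.succ_ne_zero j) h1.symm
      · rw [if_neg hbi]
  have hej : ∀ j, hasv j → ∀ i, (if b i = j.succ then e i else 0) = if i = ch j then 1 else 0 := by
    intro j hj i
    by_cases hi : i = ch j
    · rw [if_pos hi, hi, if_pos (hch j hj).1, he]
      simp only
      rw [if_pos]
      exact Or.inr ⟨j, hj, rfl⟩
    · rw [if_neg hi]
      by_cases hbi : b i = j.succ
      · rw [if_pos hbi, he]
        simp only
        rw [if_neg]
        rintro (h | ⟨j', hj', hj''⟩)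
        · rw [h, hb0] at hbi
          exact (Fin.succ_ne_zero j) hbi.symm
        · have h1 := (hch j' hj').1
          rw [hj'', hbi] at h1
          have h3 := Fin.succ_injective _ h1
          subst h3
          exact hi hj''.symm
      · rw [if_neg hbi]
  obtain ⟨A2, hA2⟩ : ∃ A2, A2 = pderiv i0 (pderiv i0 Q) := ⟨_, rfl⟩
  obtain ⟨M, hM⟩ : ∃ M : Fin m → MvPolynomial (Fin N) F,
      M = fun j => A2 * pderiv (ch j) Q - Q * pderiv (ch j) A2 := ⟨_, rfl⟩
  have hMne : ∀ j, hasv j → M j ≠ 0 := by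
    intro j hj
    rw [hM]
    simp only
    rw [hA2]
    exact gen_minor Q hQ i0 h00 _ (Pool.Agent.Y200.QB.pderiv_ne_zero _ _ (hch j hj).2)
  have hprod : A2 * (pderiv i0 Q ^ 2 - 2 * A2 * Q) *
      ∏ j : Fin m, (if hasv j then M j else 1) ≠ 0 := by
    refine mul_ne_zero (mul_ne_zero ?_ ?_) ?_
    · rw [hA2]
      exact h00
    · rw [hA2]
      exact gen_disc Q hQ i0 h01
    · rw [Finset.prod_ne_zero_iff]
      intro j _
      by_cases hj : hasv j
      · rw [if_pos hj]
        exact hMne j hj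
      · rw [if_neg hj]
        exact one_ne_zero
  refine ⟨_, hprod, fun c y0 hy hc => ?_⟩
  rw [map_mul, map_mul, map_prod] at hc
  have hc1 : eval c A2 ≠ 0 := fun h => hc (by rw [h]; ring)
  have hc2 : eval c (pderiv i0 Q ^ 2 - 2 * A2 * Q) ≠ 0 := fun h => hc (by rw [h]; ring)
  have hc3 : ∀ j, hasv j → eval c (M j) ≠ 0 := by
    intro j hj h
    apply hc
    have h3 : ∏ j : Fin m, eval c (if hasv j then M j else 1) = 0 := by
      apply Finset.prod_eq_zero (Finset.mem_univ j)
      rw [if_pos hj, h]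
    rw [h3, mul_zero]
  obtain ⟨T, hT⟩ : ∃ T : MvPolynomial (Fin (m + 1)) F, T = lin (R := F) b c e Q := ⟨_, rfl⟩
  have d0 : ∀ P : MvPolynomial (Fin N) F, pderiv 0 (lin (R := F) b c e P) =
      lin (R := F) b c e (pderiv i0 P) := fun P => pderiv_lin b c e 0 i0 he0 P
  have dj : ∀ j, hasv j → ∀ P : MvPolynomial (Fin N) F,
      pderiv j.succ (lin (R := F) b c e P) = lin (R := F) b c e (pderiv (ch j) P) :=
    fun j hj P => pderiv_lin b c e j.succ (ch j) (hej j hj) P
  have ca : 2 * cf T 2 0 = eval c A2 := by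
    rw [cf20, hT, d0, d0, eval_zero_lin, hA2]
  have cb : cf T 1 0 = eval c (pderiv i0 Q) := by
    rw [cf10, hT, d0, eval_zero_lin]
  have cc : cf T 0 0 = eval c Q := by
    rw [cf00, hT, eval_zero_lin]
  have cc1 : ∀ j, hasv j → cf T 0 (Finsupp.single j 1) = eval c (pderiv (ch j) Q) := by
    intro j hj
    rw [cf01, hT, dj j hj, eval_zero_lin]
  have ca1 : ∀ j, hasv j → 2 * cf T 2 (Finsupp.single j 1) = eval c (pderiv (ch j) A2) := by
    intro j hj
    rw [cf21, hT, d0, d0, dj j hj, eval_zero_lin, hA2]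
  have hane : cf T 2 0 ≠ 0 := by
    intro h
    apply hc1
    rw [← ca, h, mul_zero]
  have hdisc : cf T 1 0 ^ 2 - 4 * cf T 2 0 * cf T 0 0 ≠ 0 := by
    intro h
    apply hc2
    rw [map_sub, map_pow, map_mul, map_mul, map_ofNat, ← ca, ← cb, ← cc]
    linear_combination h
  have hmin : ∀ j, hasv j → cf T 2 0 * cf T 0 (Finsupp.single j 1) -
      cf T 0 0 * cf T 2 (Finsupp.single j 1) ≠ 0 := by
    intro j hj h
    apply hc3 j hj
    rw [hM]
    simp only [map_sub, map_mul]
    rw [← ca, ← cc, ← cc1 j hj, ← ca1 j hj]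
    linear_combination 2 * h
  rw [hT] at hane hdisc hmin
  have hm' : ∀ j : Fin m, (∀ i, b i = j.succ → degreeOf i Q = 0) ∨
      cf (lin (R := F) b c e Q) 2 0 * cf (lin (R := F) b c e Q) 1 (Finsupp.single j 1) -
        cf (lin (R := F) b c e Q) 1 0 * cf (lin (R := F) b c e Q) 2 (Finsupp.single j 1) ≠ 0 ∨
      cf (lin (R := F) b c e Q) 2 0 * cf (lin (R := F) b c e Q) 0 (Finsupp.single j 1) -
        cf (lin (R := F) b c e Q) 0 0 * cf (lin (R := F) b c e Q) 2 (Finsupp.single j 1) ≠
          0 := by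
    intro j
    by_cases hj : hasv j
    · right
      right
      exact hmin j hj
    · left
      intro i hi
      by_contra h6
      apply hj
      rw [hhasv]
      exact ⟨i, hi, h6⟩
  have hs := indep_vars F ((m + 1) + N)
  obtain ⟨z, y, h⟩ := blocks (L := FractionRing (MvPolynomial (Fin ((m + 1) + N)) F)) b Q h2 h4 c e y0 hy hane hdisc
    hm' (fun i => algebraMap _ _ (X (Fin.castAdd N i))) (fun i => algebraMap _ _ (X (Fin.natAdd (m + 1) i))) (by
      have h1 : (Sum.elim (fun i : Fin (m + 1) => algebraMap (MvPolynomial (Fin ((m + 1) + N)) F)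
            (FractionRing (MvPolynomial (Fin ((m + 1) + N)) F)) (X (Fin.castAdd N i)))
          (fun i : Fin N => algebraMap (MvPolynomial (Fin ((m + 1) + N)) F)
            (FractionRing (MvPolynomial (Fin ((m + 1) + N)) F)) (X (Fin.natAdd (m + 1) i)))) =
          (fun i : Fin ((m + 1) + N) => algebraMap (MvPolynomial (Fin ((m + 1) + N)) F)
            (FractionRing (MvPolynomial (Fin ((m + 1) + N)) F)) (X i)) ∘ finSumFinEquiv := by
        funext i
        rcases i with i | i
        · rfl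
        · rfl
      rw [h1]
      exact (algebraicIndependent_equiv finSumFinEquiv).2 hs)
  exact ⟨_, z, y, h⟩

end Pool.Agent.N230.FC
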