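import Pool.Agent.N230.FC.PD

/-!
# Unirational varieties are potentially dense
-/

set_option autoImplicit false

namespace Pool.Agent.N230.FC

open MvPolynomial

universe u v

theorem uni_dense {k E : Type u} [Field k] [CharZero k] [Field E] [Algebra k E] {n : ℕ}
    (ψ : E →ₐ[k] FractionRing (MvPolynomial (Fin n) k)) {M : ℕ} (z : Fin M → E) : PotDense k z := by
  have h0 : PotDense k (Fin.elim0 : Fin 0 → k) := by
    refine ⟨∅, fun G hG => ⟨Fin.elim0, fun i => i.elim0, fun H hH => hH, hG⟩⟩
  have h1 : IntermediateField.adjoin k (Set.range (Fin.elim0 : Fin 0 → k)) = ⊤ := by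
    rw [eq_top_iff]
    intro z _
    exact (IntermediateField.adjoin k (Set.range (Fin.elim0 : Fin 0 → k))).algebraMap_mem z
  exact (h0.prod n).of_hom (prodPt_gen h1 n) z ψ

end Pool.Agent.N230.FC
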