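import Pool.Agent.N230.FC.Big
import Pool.Agent.R867.Mov.Core

/-!
# Unirational bases
-/

set_option autoImplicit false

namespace Pool.Agent.N230.FC

open MvPolynomial Pool.Agent.R867.Mov

universe u

/-- Varieties dominated by the product of a unirational variety with an affine space are unirational. -/
theorem uni_base {k F K : Type u} [Field k] [Field F] [Algebra k F] [Field K] [Algebra k K] [Algebra F K]
    [IsScalarTower k F K] {n q : ℕ} (σ : K →ₐ[F] FractionRing (MvPolynomial (Fin n) F))
    (φ : F →ₐ[k] FractionRing (MvPolynomial (Fin q) k)) :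
    ∃ n', Nonempty (K →ₐ[k] FractionRing (MvPolynomial (Fin n') k)) := by
  let Q := FractionRing (MvPolynomial (Fin q) k)
  let ψ : MvPolynomial (Fin n) F →ₐ[k] FractionRing (MvPolynomial (Fin n) Q) :=
    (IsScalarTower.toAlgHom k (MvPolynomial (Fin n) Q) (FractionRing (MvPolynomial (Fin n) Q))).comp
      (MvPolynomial.mapAlgHom φ)
  have hψ : Function.Injective ψ := by
    have h1 : Function.Injective (algebraMap (MvPolynomial (Fin n) Q) (FractionRing (MvPolynomial (Fin n) Q))) :=
      IsFractionRing.injective _ _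
    have h2 : Function.Injective (MvPolynomial.map (σ := Fin n) (φ : F →+* Q)) :=
      MvPolynomial.map_injective _ φ.injective
    exact h1.comp h2
  let Ψ : FractionRing (MvPolynomial (Fin n) F) →ₐ[k] FractionRing (MvPolynomial (Fin n) Q) :=
    IsFractionRing.liftAlgHom (K := FractionRing (MvPolynomial (Fin n) F)) (g := ψ) hψ
  obtain ⟨n', ⟨e⟩⟩ := (PT_comb k n q).equiv
  exact ⟨n', ⟨(e : _ →ₐ[k] _).comp (Ψ.comp (σ.restrictScalars k))⟩⟩

end Pool.Agent.N230.FC
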