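import Pool.Agent.N230.FC.Nondeg
import Pool.Agent.N230.FC.Elim
import Pool.Agent.N230.FC.Ub
import Pool.Agent.N230.FC.UDense

/-!
# General hypersurfaces of multidegree `(2, d₁, …, d_m)` over function fields
-/

set_option autoImplicit false

namespace Pool.Agent.N230.FC

open MvPolynomial Matrix Pool.Agent.R867.H Pool.Agent.R867.Mov

universe u v

/-- **General hypersurfaces over function fields are unirational.** -/
theorem multi {N m : ℕ} (b : Fin N → Fin (m + 1)) (d : Fin m → ℕ) (hd : ∀ j, 1 ≤ d j ∧ d j ≤ 3)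
    (hn : ∀ j : Fin m, d j ≤ (Finset.univ.filter fun l => b l = j.succ).card + 1) (r : ℕ) (hr : 1 ≤ r)
    (hcard : 2 ^ r < (Finset.univ.filter fun l => b l = 0).card + 1) :
    ∃ Φ : MvPolynomial (Ex b (Fin.cons 2 d)) ℚ, Φ ≠ 0 ∧
      ∀ (k F : Type) [Field k] [IsAlgClosed k] [Field F] [CharZero F] [Algebra k F], Algebra.trdeg k F ≤ r →
        ∀ f : MvPolynomial (Fin N) F,
        (∀ n ∈ f.support, ∀ j, ∑ l with b l = j, n l ≤ (Fin.cons 2 d : Fin (m + 1) → ℕ) j) →
        Irreducible (map (algebraMap F (AlgebraicClosure F)) f) →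
        aeval (fun n : Ex b (Fin.cons 2 d) => coeff (n : Fin N →₀ ℕ) f) Φ ≠ 0 →
        ∃ (n : ℕ) (P : Fin N → FractionRing (MvPolynomial (Fin n) F)),
          ∀ G : MvPolynomial (Fin N) F, aeval P G = 0 ↔ f ∣ G := by
  classical
  have h2r : 2 ≤ 2 ^ r := by
    calc 2 = 2 ^ 1 := rfl
      _ ≤ 2 ^ r := Nat.pow_le_pow_right (by norm_num) hr
  obtain ⟨e0, he0⟩ := Finset.card_pos.1 (show 0 < (Finset.univ.filter fun l => b l = 0).card by omega)
  obtain ⟨e, he⟩ : ∃ e : {i : Fin N // b i = 0}, (e : Fin N) = e0 := ⟨⟨e0, (Finset.mem_filter.1 he0).2⟩, rfl⟩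
  obtain ⟨Φ, hΦ, hmain⟩ := core_rel.{0} (β := b) (d := (Fin.cons 2 d : Fin (m + 1) → ℕ))
    (fun j => by
      refine Fin.cases ?_ (fun j => ?_) j
      · rw [Fin.cons_zero]
        norm_num
      · rw [Fin.cons_succ]
        exact (hd j).1)
    (fun j => by
      refine Fin.cases ?_ (fun j => ?_) j
      · rw [Fin.cons_zero]
        norm_num
      · rw [Fin.cons_succ]
        exact (hd j).2)
    (fun j => by
      refine Fin.cases ?_ (fun j => ?_) j
      · rw [Fin.cons_zero]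
        omega
      · rw [Fin.cons_succ]
        exact hn j)
    ⟨0, by
      rw [Fin.cons_zero]
      omega⟩
  obtain ⟨Φ', hΦ', hmain'⟩ := nondeg.{0} b d e
  have hex : ∀ n : Fin N →₀ ℕ, n ∈ expo b (Fin.cons 2 d) ↔
      ∀ j, ∑ l with b l = j, n l ≤ (Fin.cons 2 d : Fin (m + 1) → ℕ) j := fun n => mem_expo
  refine ⟨rename (Equiv.subtypeEquivRight hex) Φ * Φ', mul_ne_zero (fun h0 => hΦ ?_) hΦ', ?_⟩
  · exact rename_injective _ (Equiv.injective _) (h0.trans (map_zero _).symm)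
  intro k F _ _ _ _ _ htr f hsupp hirr hf
  rw [map_mul] at hf
  have hf1 := left_ne_zero_of_mul hf
  have hf2 := right_ne_zero_of_mul hf
  rw [aeval_rename] at hf1
  have hirr' : Irreducible f := irr_of_map hirr
  obtain ⟨K, _, _, ξ, hξ⟩ := exists_gp hirr'
  obtain ⟨g, hg, hdens⟩ := main_dens hξ hirr (hmain f ξ (fun n hn => mem_expo.mpr (hsupp n hn)) hf1 hξ)
  obtain ⟨hfe, D, hDs, hD0, hfD, hDd, hDe⟩ := hmain' F f hsupp hf2
  obtain ⟨R, t, hR, hRe, ⟨q, hq⟩⟩ := elim hirr' hfe hg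
  have hcard' : 2 ^ r < Fintype.card (Option {i : Fin N // b i = 0}) := by
    rw [Fintype.card_option, Fintype.card_subtype]
    exact hcard
  obtain ⟨p, hp1, hp2⟩ := quad_pt b (fun φ hφ => quad_zero r htr φ hφ hcard') (by omega) D hDs hD0 hDd e hDe R hR hRe
  rw [← hfD] at hp1
  have hpg : eval p g ≠ 0 := by
    intro h0
    have h1 := congrArg (eval p) hq
    rw [map_sub, map_mul, map_mul, h0, hp1, zero_mul, zero_mul, zero_sub, neg_eq_zero] at h1
    exact hp2 h1
  have hae : ∀ G : MvPolynomial (Fin N) F, aeval p G = eval p G := fun G => by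
    rw [aeval_def, eval₂_eq_eval_map]
    congr 1
    exact map_id G
  obtain ⟨⟨n, P, hP⟩, -⟩ := hdens F p (by rw [hae]; exact hp1) (by rw [hae]; exact hpg)
  refine ⟨n, P, fun G => ?_⟩
  rw [hP]
  have h1 : map (algebraMap F F) f = f := map_id f
  rw [h1]

/-- embeddings of the function fields -/
theorem emb_gp {F : Type u} {K : Type v} [Field F] [Field K] [Algebra F K] {N n : ℕ} {f : MvPolynomial (Fin N) F}
    {x : Fin N → K} (hx : ∀ G : MvPolynomial (Fin N) F, aeval x G = 0 ↔ f ∣ G)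
    (hK : IntermediateField.adjoin F (Set.range x) = ⊤)
    {P : Fin N → FractionRing (MvPolynomial (Fin n) F)}
    (hP : ∀ G : MvPolynomial (Fin N) F, aeval P G = 0 ↔ f ∣ G) :
    Nonempty (K →ₐ[F] FractionRing (MvPolynomial (Fin n) F)) := by
  obtain ⟨σ, -⟩ := Pool.Agent.R867.Mov.embedG
    (aeval x : MvPolynomial (Fin N) F →ₐ[F] K)
    (aeval P : MvPolynomial (Fin N) F →ₐ[F] FractionRing (MvPolynomial (Fin n) F)) (fun G => by
      rw [hx, hP]) (fun z => by
      obtain ⟨P, Q, h1, h2⟩ := frac hK z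
      exact ⟨P, Q, h1, h2⟩)
  exact ⟨σ⟩

end Pool.Agent.N230.FC
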