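import Pool.Agent.N230.FC.Multi

/-!
# General hypersurfaces of multidegree `(2, d₁, …, d_m)` over fields with a small `u`-invariant
-/

set_option autoImplicit false

namespace Pool.Agent.N230.FC

open MvPolynomial Matrix Pool.Agent.R867.H Pool.Agent.R867.Mov

universe u v

theorem iso_equiv {F : Type u} [Field F] {n : ℕ}
    (h : ∀ φ : MvPolynomial (Fin n) F, φ.IsHomogeneous 2 → ∃ a : Fin n → F, a ≠ 0 ∧ eval a φ = 0)
    {I : Type v} [Fintype I] (hI : Fintype.card I = n) (φ : MvPolynomial I F) (hφ : φ.IsHomogeneous 2) :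
    ∃ a : I → F, a ≠ 0 ∧ eval a φ = 0 := by
  classical
  obtain ⟨e⟩ : Nonempty (I ≃ Fin n) := ⟨Fintype.equivFinOfCardEq hI⟩
  obtain ⟨a, ha, h0⟩ := h (rename e φ) hφ.rename_isHomogeneous
  refine ⟨a ∘ e, fun h1 => ha ?_, ?_⟩
  · funext i
    have h2 := congrFun h1 (e.symm i)
    simpa using h2
  · rw [eval_rename] at h0
    exact h0

/-- **General hypersurfaces over fields with small `u`-invariant are unirational.** -/
theorem multi2 {N m : ℕ} (b : Fin N → Fin (m + 1)) (d : Fin m → ℕ) (hd : ∀ j, 1 ≤ d j ∧ d j ≤ 3)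
    (hn : ∀ j : Fin m, d j ≤ (Finset.univ.filter fun l => b l = j.succ).card + 1)
    (hn₀ : 2 ≤ (Finset.univ.filter fun l => b l = 0).card) :
    ∃ Φ : MvPolynomial (Ex b (Fin.cons 2 d)) ℚ, Φ ≠ 0 ∧
      ∀ (F : Type u) [Field F] [CharZero F],
        (∀ φ : MvPolynomial (Fin ((Finset.univ.filter fun l => b l = 0).card + 1)) F, φ.IsHomogeneous 2 →
          ∃ a : Fin ((Finset.univ.filter fun l => b l = 0).card + 1) → F, a ≠ 0 ∧ eval a φ = 0) →
        ∀ f : MvPolynomial (Fin N) F,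
        (∀ n ∈ f.support, ∀ j, ∑ l with b l = j, n l ≤ (Fin.cons 2 d : Fin (m + 1) → ℕ) j) →
        Irreducible (map (algebraMap F (AlgebraicClosure F)) f) →
        aeval (fun n : Ex b (Fin.cons 2 d) => coeff (n : Fin N →₀ ℕ) f) Φ ≠ 0 →
        (∃ (n : ℕ) (P : Fin N → FractionRing (MvPolynomial (Fin n) F)),
          ∀ G : MvPolynomial (Fin N) F, aeval P G = 0 ↔ f ∣ G) ∧
        ∀ G : MvPolynomial (Fin N) F, ¬ f ∣ G → ∃ p : Fin N → F, eval p f = 0 ∧ eval p G ≠ 0 := by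
  classical
  obtain ⟨e0, he0⟩ := Finset.card_pos.1 (show 0 < (Finset.univ.filter fun l => b l = 0).card by omega)
  obtain ⟨e, he⟩ : ∃ e : {i : Fin N // b i = 0}, (e : Fin N) = e0 := ⟨⟨e0, (Finset.mem_filter.1 he0).2⟩, rfl⟩
  obtain ⟨Φ, hΦ, hmain⟩ := core_rel.{u} (β := b) (d := (Fin.cons 2 d : Fin (m + 1) → ℕ))
    (fun j => by
      refine Fin.cases ?_ (fun j => ?_) j
      · rw [Fin.cons_zero]
        norm_num
      · rw [Fin.cons_succ]
        exact (hd j).1)
    (fun j => by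
      refine Fin.cases ?_ (fun j => ?_) j
      · rw [Fin.cons_zero]
        norm_num
      · rw [Fin.cons_succ]
        exact (hd j).2)
    (fun j => by
      refine Fin.cases ?_ (fun j => ?_) j
      · rw [Fin.cons_zero]
        omega
      · rw [Fin.cons_succ]
        exact hn j)
    ⟨0, by
      rw [Fin.cons_zero]
      omega⟩
  obtain ⟨Φ', hΦ', hmain'⟩ := nondeg.{u} b d e
  have hex : ∀ n : Fin N →₀ ℕ, n ∈ expo b (Fin.cons 2 d) ↔
      ∀ j, ∑ l with b l = j, n l ≤ (Fin.cons 2 d : Fin (m + 1) → ℕ) j := fun n => mem_expo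
  refine ⟨rename (Equiv.subtypeEquivRight hex) Φ * Φ', mul_ne_zero (fun h0 => hΦ ?_) hΦ', ?_⟩
  · exact rename_injective _ (Equiv.injective _) (h0.trans (map_zero _).symm)
  intro F _ _ hiso f hsupp hirr hf
  rw [map_mul] at hf
  have hf1 := left_ne_zero_of_mul hf
  have hf2 := right_ne_zero_of_mul hf
  rw [aeval_rename] at hf1
  have hirr' : Irreducible f := irr_of_map hirr
  obtain ⟨K, _, _, ξ, hξ⟩ := exists_gp hirr'
  obtain ⟨g, hg, hdens⟩ := main_dens hξ hirr (hmain f ξ (fun n hn => mem_expo.mpr (hsupp n hn)) hf1 hξ)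
  obtain ⟨hfe, D, hDs, hD0, hfD, hDd, hDe⟩ := hmain' F f hsupp hf2
  obtain ⟨R, t, hR, hRe, ⟨q, hq⟩⟩ := elim hirr' hfe hg
  have hcard' : Fintype.card (Option {i : Fin N // b i = 0}) =
      (Finset.univ.filter fun l => b l = 0).card + 1 := by
    rw [Fintype.card_option, Fintype.card_subtype]
  obtain ⟨p, hp1, hp2⟩ := quad_pt b (fun φ hφ => iso_equiv hiso hcard' φ hφ) (by omega) D hDs hD0 hDd e hDe R hR hRe
  rw [← hfD] at hp1
  have hpg : eval p g ≠ 0 := by
    intro h0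
    have h1 := congrArg (eval p) hq
    rw [map_sub, map_mul, map_mul, h0, hp1, zero_mul, zero_mul, zero_sub, neg_eq_zero] at h1
    exact hp2 h1
  have hae : ∀ (p : Fin N → F) (G : MvPolynomial (Fin N) F), aeval p G = eval p G := fun p G => by
    rw [aeval_def, eval₂_eq_eval_map]
    congr 1
    exact map_id G
  have h1 : map (algebraMap F F) f = f := map_id f
  obtain ⟨⟨n, P, hP⟩, hD⟩ := hdens F p (by rw [hae]; exact hp1) (by rw [hae]; exact hpg)
  rw [h1] at hP hD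
  refine ⟨⟨n, P, hP⟩, fun G hG => ?_⟩
  obtain ⟨p', h2, h3⟩ := hD G hG
  rw [hae] at h2 h3
  exact ⟨p', h2, h3⟩

end Pool.Agent.N230.FC
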