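import Pool.Agent.N230.FC.Repr

/-!
# General polynomials of multidegree `(2, …)` are nondegenerate
-/

set_option autoImplicit false

namespace Pool.Agent.N230.FC

open MvPolynomial Matrix

universe u v w

section

variable {N m : ℕ} {b : Fin N → Fin (m + 1)}

theorem mo_sum_zero (a : Option {i : Fin N // b i = 0}) : ∑ l with b l = 0, mo b a l ≤ 1 := by
  classical
  rcases a with _ | a
  · have h1 : ∀ l, mo b none l = 0 := fun _ => rfl
    rw [Finset.sum_eq_zero fun l _ => h1 l]
    exact Nat.zero_le _
  · rw [Finset.sum_eq_single (a : Fin N)]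
    · exact le_of_eq Finsupp.single_eq_same
    · intro l _ hl
      exact Finsupp.single_eq_of_ne hl
    · intro h
      exact absurd (Finset.mem_filter.2 ⟨Finset.mem_univ (a : Fin N), a.2⟩ :
        (a : Fin N) ∈ Finset.univ.filter (fun l => b l = 0)) h

theorem mo_sum_succ (a : Option {i : Fin N // b i = 0}) (j : Fin (m + 1)) (hj : j ≠ 0) :
    ∑ l with b l = j, mo b a l = 0 := by
  classical
  refine Finset.sum_eq_zero fun l hl => ?_
  rcases a with _ | a
  · rfl
  · refine Finsupp.single_eq_of_ne ?_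
    rintro rfl
    exact hj ((Finset.mem_filter.1 hl).2.symm.trans a.2)

theorem mo_mem (d : Fin m → ℕ) (a a' : Option {i : Fin N // b i = 0}) (j : Fin (m + 1)) :
    ∑ l with b l = j, (mo b a + mo b a') l ≤ (Fin.cons 2 d : Fin (m + 1) → ℕ) j := by
  simp only [Finsupp.add_apply]
  rw [Finset.sum_add_distrib]
  by_cases hj : j = 0
  · subst hj
    have h1 := mo_sum_zero a
    have h2 := mo_sum_zero a'
    rw [Fin.cons_zero]
    omega
  · rw [mo_sum_succ a j hj, mo_sum_succ a' j hj]
    exact Nat.zero_le _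

/-- exponents -/
abbrev Ex (b : Fin N → Fin (m + 1)) (d : Fin (m + 1) → ℕ) : Type :=
  {n : Fin N →₀ ℕ // ∀ j, ∑ l with b l = j, n l ≤ d j}

/-- the generic matrix -/
noncomputable def gM [DecidableEq (Option {i : Fin N // b i = 0})] {S : Type}
    (U : Option {i : Fin N // b i = 0} → Option {i : Fin N // b i = 0} → S) :
    Matrix (Option {i : Fin N // b i = 0}) (Option {i : Fin N // b i = 0}) (MvPolynomial S ℚ) :=
  Matrix.of fun a a' => C (if a = a' then 1 else 2⁻¹) * X (U a a')

theorem gM_apply [DecidableEq (Option {i : Fin N // b i = 0})] {S : Type}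
    (U : Option {i : Fin N // b i = 0} → Option {i : Fin N // b i = 0} → S)
    (a a' : Option {i : Fin N // b i = 0}) : gM U a a' = C (if a = a' then 1 else 2⁻¹) * X (U a a') := rfl

/-- **General polynomials of multidegree at most `(2, …)` are nondegenerate quadratic polynomials.** -/
theorem nondeg (b : Fin N → Fin (m + 1)) (d : Fin m → ℕ) (e : {i : Fin N // b i = 0}) :
    ∃ Φ : MvPolynomial (Ex b (Fin.cons 2 d)) ℚ,
      Φ ≠ 0 ∧ ∀ (F : Type u) [Field F] [CharZero F] (f : MvPolynomial (Fin N) F),
        (∀ n ∈ f.support, ∀ j, ∑ l with b l = j, n l ≤ (Fin.cons 2 d : Fin (m + 1) → ℕ) j) →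
        aeval (fun n : Ex b (Fin.cons 2 d) =>
          coeff (n : Fin N →₀ ℕ) f) Φ ≠ 0 →
        degreeOf (e : Fin N) f ≠ 0 ∧
        ∃ D : Matrix (Option {i : Fin N // b i = 0}) (Option {i : Fin N // b i = 0}) (MvPolynomial (Fin N) F),
          D.IsSymm ∧ (∀ a a' i, b i = 0 → degreeOf i (D a a') = 0) ∧ f = Yv b ⬝ᵥ D *ᵥ Yv b ∧ D.det ≠ 0 ∧
          D (some e) (some e) ≠ 0 := by
  classical
  obtain ⟨U, hU⟩ : ∃ U : Option {i : Fin N // b i = 0} → Option {i : Fin N // b i = 0} →
      Ex b (Fin.cons 2 d),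
      ∀ a a', (U a a' : Fin N →₀ ℕ) = mo b a + mo b a' :=
    ⟨fun a a' => ⟨mo b a + mo b a', mo_mem d a a'⟩, fun _ _ => rfl⟩
  obtain ⟨DU, hDU⟩ : ∃ DU : Matrix (Option {i : Fin N // b i = 0}) (Option {i : Fin N // b i = 0})
      (MvPolynomial (Ex b (Fin.cons 2 d)) ℚ),
      ∀ a a', DU a a' = C (if a = a' then 1 else 2⁻¹) * X (U a a') :=
    ⟨gM U, gM_apply U⟩
  refine ⟨DU.det * X (U (some e) (some e)), ?_, ?_⟩
  · intro h0
    obtain ⟨ε, hε⟩ : ∃ ε : Ex b (Fin.cons 2 d) → ℚ,
      ε = fun n => if ∃ a, n = U a a then 1 else 0 := ⟨_, rfl⟩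
    have h1 : eval ε DU.det = 1 := by
      rw [RingHom.map_det]
      have h2 : (eval ε).mapMatrix DU = 1 := by
        ext a a'
        rw [RingHom.mapMatrix_apply, Matrix.map_apply, hDU, map_mul, eval_C, eval_X, hε, Matrix.one_apply]
        by_cases haa : a = a'
        · subst haa
          rw [if_pos rfl, if_pos rfl]
          simp only
          rw [if_pos ⟨a, rfl⟩, mul_one]
        · rw [if_neg haa, if_neg haa]
          simp only
          rw [if_neg, mul_zero]
          rintro ⟨c, hc⟩
          have h3 := congrArg Subtype.val hc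
          rw [hU, hU] at h3
          rcases mo_add h3 with ⟨h4, h5⟩ | ⟨h4, h5⟩
          · exact haa (h4.trans h5.symm)
          · exact haa (h4.trans h5.symm)
      rw [h2, det_one]
    have h2 : eval ε (X (U (some e) (some e)) : MvPolynomial _ ℚ) = 1 := by
      rw [eval_X, hε]
      simp only
      rw [if_pos ⟨_, rfl⟩]
    have h3 : eval ε (DU.det * X (U (some e) (some e))) = 1 := by rw [map_mul, h1, h2, mul_one]
    rw [h0, map_zero] at h3
    exact zero_ne_one h3
  · intro F _ _ f hsupp hne
    rw [map_mul, aeval_X] at hne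
    have hne1 := left_ne_zero_of_mul hne
    have hne2 := right_ne_zero_of_mul hne
    rw [hU] at hne2
    refine ⟨?_, ?_⟩
    · intro h0
      have h1 : mo b (some e) + mo b (some e) ∈ f.support := mem_support_iff.2 hne2
      have h2 := monomial_le_degreeOf (e : Fin N) h1
      rw [h0, Finsupp.add_apply] at h2
      have h3 : mo b (some e) (e : Fin N) = 1 := Finsupp.single_eq_same
      rw [h3] at h2
      omega
    · obtain ⟨D, h1, h2, h3, h4⟩ := QR.of_deg (b := b) f (fun n hn => (hsupp n hn 0).trans (le_of_eq (Fin.cons_zero _ _)))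
      refine ⟨D, h1, h2, h3, ?_, ?_⟩
      · intro h0
        apply hne1
        have h5 : aeval (fun n : Ex b (Fin.cons 2 d) =>
            coeff (n : Fin N →₀ ℕ) f) DU.det = constantCoeff D.det := by
          rw [AlgHom.map_det, RingHom.map_det]
          congr 1
          ext a a'
          rw [AlgHom.mapMatrix_apply, RingHom.mapMatrix_apply, Matrix.map_apply, Matrix.map_apply, hDU, map_mul,
            aeval_X, hU, constantCoeff_eq, h4, aeval_C]
          congr 1
          split_ifs
          · exact map_one _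
          · rw [map_inv₀, map_ofNat]
        rw [h5, h0, map_zero]
      · intro h0
        apply hne2
        have h5 := h4 (some e) (some e)
        rw [h0, coeff_zero, if_pos rfl, one_mul] at h5
        exact h5.symm

end

end Pool.Agent.N230.FC
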