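import Pool.Agent.N230.FC.QPt

/-!
# General rational points of quadric bundles
-/

set_option autoImplicit false

namespace Pool.Agent.N230.FC

open MvPolynomial Matrix

universe u v w

/-- the second point on a line through a point of a quadric -/
theorem param0 {E : Type u} [Field E] {A : Type v} [Fintype A] (M : Matrix A A E) (hs : M.IsSymm)
    (u : A → E) (hu : u ⬝ᵥ M *ᵥ u = 0) (y : A → E) (B φ : E)
    (hB : B = 2 * (u ⬝ᵥ M *ᵥ y)) (hφ : φ = y ⬝ᵥ M *ᵥ y) :
    (B • y - φ • u) ⬝ᵥ M *ᵥ (B • y - φ • u) = 0 := by
  have hsym : y ⬝ᵥ M *ᵥ u = u ⬝ᵥ M *ᵥ y := by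
    rw [dotProduct_mulVec, ← mulVec_transpose, hs.eq, dotProduct_comm]
  simp only [mulVec_sub, mulVec_smul, sub_dotProduct, dotProduct_sub, smul_dotProduct, dotProduct_smul, smul_eq_mul,
    hsym]
  rw [hu, ← hφ]
  linear_combination (B * φ) * hB

/-- a symmetric matrix whose quadratic polynomial vanishes is zero -/
theorem symm_zero {E : Type u} [Field E] [CharZero E] {S : Type v} [Fintype S] [DecidableEq S]
    (N : Matrix (Option S) (Option S) E) (hs : N.IsSymm)
    (h : ∀ y : Option S → E, y none = 1 → y ⬝ᵥ N *ᵥ y = 0) : N = 0 := by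
  classical
  have hex : ∀ y : Option S → E, y ⬝ᵥ N *ᵥ y = ∑ a, ∑ a', y a * N a a' * y a' := by
    intro y
    rw [dotProduct]
    refine Finset.sum_congr rfl fun a _ => ?_
    rw [mulVec, dotProduct, Finset.mul_sum]
    exact Finset.sum_congr rfl fun a' _ => by ring
  have hsy : ∀ a a', N a a' = N a' a := fun a a' => by
    have := congrFun (congrFun hs a) a'
    rw [transpose_apply] at this
    exact this.symm
  have h2 : (2 : E) ≠ 0 := two_ne_zero
  have h00 : N none none = 0 := by
    have h1 := h (Pi.single none 1) (Pi.single_eq_same _ _)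
    rw [single_dotProduct, one_mul, mulVec_single_one] at h1
    exact h1
  have hq : ∀ (z : Option S → E), z none = 0 → 2 * (N none ⬝ᵥ z) + z ⬝ᵥ N *ᵥ z = 0 := by
    intro z hz
    have h1 := h (Pi.single none 1 + z) (by rw [Pi.add_apply, Pi.single_eq_same, hz, add_zero])
    rw [mulVec_add, dotProduct_add, add_dotProduct, add_dotProduct, single_dotProduct, single_dotProduct, one_mul,
      one_mul, mulVec_single_one, mulVec] at h1
    have h3 : N.col none none = 0 := h00
    have h4 : z ⬝ᵥ N.col none = N none ⬝ᵥ z := by
      rw [dotProduct_comm]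
      congr 1
      funext a
      exact hsy a none
    rw [h3, h4] at h1
    linear_combination h1
  have hboth : ∀ z : Option S → E, z none = 0 → z ⬝ᵥ N *ᵥ z = 0 ∧ N none ⬝ᵥ z = 0 := by
    intro z hz
    have h1 := hq z hz
    have h3 := hq (-z) (by rw [Pi.neg_apply, hz, neg_zero])
    rw [dotProduct_neg, mulVec_neg, dotProduct_neg, neg_dotProduct, neg_neg] at h3
    constructor
    · have : (2 : E) * (z ⬝ᵥ N *ᵥ z) = 0 := by linear_combination h1 + h3
      exact (mul_eq_zero.1 this).resolve_left h2
    · have : (2 : E) * (2 * (N none ⬝ᵥ z)) = 0 := by linear_combination h1 - h3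
      exact (mul_eq_zero.1 ((mul_eq_zero.1 this).resolve_left h2)).resolve_left h2
  have h0s : ∀ i : S, N none (some i) = 0 := by
    intro i
    have h1 := (hboth (Pi.single (some i) 1) (Pi.single_eq_of_ne (by simp) _)).2
    rw [dotProduct_single, mul_one] at h1
    exact h1
  have hss : ∀ i j : S, N (some i) (some j) = 0 := by
    intro i j
    have hd : ∀ i : S, N (some i) (some i) = 0 := by
      intro i
      have h1 := (hboth (Pi.single (some i) 1) (Pi.single_eq_of_ne (by simp) _)).1
      rw [single_dotProduct, one_mul, mulVec_single_one] at h1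
      exact h1
    have h1 := (hboth (Pi.single (some i) 1 + Pi.single (some j) 1) (by
      rw [Pi.add_apply, Pi.single_eq_of_ne (by simp), Pi.single_eq_of_ne (by simp), add_zero])).1
    rw [mulVec_add, dotProduct_add, add_dotProduct, add_dotProduct, single_dotProduct, single_dotProduct,
      single_dotProduct, single_dotProduct, one_mul, one_mul, one_mul, one_mul, mulVec_single_one,
      mulVec_single_one] at h1
    simp only [col_apply] at h1
    rw [hd i, hd j, hsy (some j) (some i)] at h1
    have h3 : (2 : E) * N (some i) (some j) = 0 := by linear_combination h1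
    exact (mul_eq_zero.1 h3).resolve_left h2
  ext a a'
  rcases a with _ | a
  · rcases a' with _ | a'
    · exact h00
    · exact h0s a'
  · rcases a' with _ | a'
    · rw [hsy]
      exact h0s a
    · exact hss a a'

end Pool.Agent.N230.FC
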