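import Pool.Agent.N230.FC.QPt2

/-!
# General rational points of quadric bundles
-/

set_option autoImplicit false

namespace Pool.Agent.N230.FC

open MvPolynomial Matrix

universe u v w

/-- the resultant of a quadratic form and of a linear form in the direction of the coordinate `e` -/
def resM {E : Type u} [Field E] {A : Type v} (M : Matrix A A E) (l : A → E) (e : A) : Matrix A A E :=
  (M e e) • vecMulVec l l - (l e) • (vecMulVec l (M e) + vecMulVec (M e) l) + (l e) ^ 2 • M

theorem resM_eval {E : Type u} [Field E] {A : Type v} [Fintype A] (M : Matrix A A E) (l : A → E) (e : A)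
    (y : A → E) : y ⬝ᵥ resM M l e *ᵥ y =
      M e e * (l ⬝ᵥ y) ^ 2 - 2 * l e * (l ⬝ᵥ y) * (M e ⬝ᵥ y) + (l e) ^ 2 * (y ⬝ᵥ M *ᵥ y) := by
  rw [resM, add_mulVec, sub_mulVec, smul_mulVec, smul_mulVec, smul_mulVec, add_mulVec, vecMulVec_mulVec,
    vecMulVec_mulVec, vecMulVec_mulVec, dotProduct_add, dotProduct_sub, dotProduct_smul, dotProduct_smul,
    dotProduct_smul, dotProduct_add]
  simp only [op_smul_eq_smul, dotProduct_smul, smul_eq_mul]
  rw [dotProduct_comm y l, dotProduct_comm y (M e)]
  ring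

theorem resM_symm {E : Type u} [Field E] {A : Type v} (M : Matrix A A E) (hs : M.IsSymm) (l : A → E) (e : A) :
    (resM M l e).IsSymm := by
  have hsy : ∀ a a', M a a' = M a' a := fun a a' => by
    have := congrFun (congrFun hs a) a'
    rw [transpose_apply] at this
    exact this.symm
  ext a a'
  rw [transpose_apply, resM]
  simp only [Matrix.add_apply, Matrix.sub_apply, Matrix.smul_apply, vecMulVec_apply, smul_eq_mul]
  rw [hsy a' a]
  ring

theorem resM_ne {E : Type u} [Field E] {A : Type v} [Fintype A] [DecidableEq A] (M : Matrix A A E)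
    (hdet : M.det ≠ 0) (hA : 3 ≤ Fintype.card A) (l : A → E) (hl : l ≠ 0) (e : A) (he : M e e ≠ 0) :
    resM M l e ≠ 0 := by
  intro h0
  rw [resM] at h0
  by_cases hle : l e = 0
  · rw [hle, zero_smul, sub_zero, zero_pow two_ne_zero, zero_smul, add_zero] at h0
    apply hl
    funext a
    have h1 := congrFun (congrFun h0 a) a
    rw [Matrix.smul_apply, vecMulVec_apply, smul_eq_mul, Matrix.zero_apply] at h1
    exact mul_self_eq_zero.1 ((mul_eq_zero.1 h1).resolve_left he)
  · have h1 : M = vecMulVec l (((l e) ^ 2)⁻¹ • ((l e) • M e - (M e e) • l)) +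
        vecMulVec (((l e) ^ 2)⁻¹ • ((l e) • M e)) l := by
      ext a a'
      have h2 := congrFun (congrFun h0 a) a'
      simp only [Matrix.add_apply, Matrix.sub_apply, Matrix.smul_apply, vecMulVec_apply, smul_eq_mul, Matrix.zero_apply] at h2
      simp only [Matrix.add_apply, vecMulVec_apply, Pi.smul_apply, Pi.sub_apply, smul_eq_mul]
      have h3 : (l e) ^ 2 ≠ 0 := pow_ne_zero _ hle
      field_simp
      linear_combination h2
    obtain ⟨w, hw⟩ : ∃ w, w = ((l e) ^ 2)⁻¹ • ((l e) • M e - (M e e) • l) := ⟨_, rfl⟩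
    rw [← hw] at h1
    have h2 : LinearMap.ker (Matrix.of ![l, w]).mulVecLin ≠ ⊥ := by
      refine LinearMap.ker_ne_bot_of_finrank_lt ?_
      rw [Module.finrank_fintype_fun_eq_card, Module.finrank_fintype_fun_eq_card, Fintype.card_fin]
      omega
    obtain ⟨z, hz, hz0⟩ := (Submodule.ne_bot_iff _).1 h2
    rw [LinearMap.mem_ker, mulVecLin_apply] at hz
    have h3 : l ⬝ᵥ z = 0 := congrFun hz 0
    have h4 : w ⬝ᵥ z = 0 := congrFun hz 1
    have h5 : M *ᵥ z = 0 := by
      rw [h1, add_mulVec, vecMulVec_mulVec, vecMulVec_mulVec, h3, h4]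
      simp
    exact hdet (exists_mulVec_eq_zero_iff.1 ⟨z, hz0, h5⟩)

end Pool.Agent.N230.FC
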