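import Pool.Agent.N230.FC.QPt3

/-!
# General rational points of quadric bundles
-/

set_option autoImplicit false

namespace Pool.Agent.N230.FC

open MvPolynomial Matrix

universe u v w

/-- **General rational points of quadric bundles**: if the quadratic forms in the homogeneous variables of the block
have zeros, then there are rational points outside of every divisor which is the preimage of a divisor by a
projection. -/
theorem quad_pt {F : Type u} [Field F] [CharZero F] {N m : ℕ} (b : Fin N → Fin (m + 1))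
    (hq : ∀ φ : MvPolynomial (Option {i : Fin N // b i = 0}) F, φ.IsHomogeneous 2 →
      ∃ a : Option {i : Fin N // b i = 0} → F, a ≠ 0 ∧ eval a φ = 0)
    (hcard : 3 ≤ Fintype.card (Option {i : Fin N // b i = 0}))
    (M : Matrix (Option {i : Fin N // b i = 0}) (Option {i : Fin N // b i = 0}) (MvPolynomial (Fin N) F))
    (hs : M.IsSymm) (hM : ∀ a a' i, b i = 0 → degreeOf i (M a a') = 0) (hdet : M.det ≠ 0)
    (e : {i : Fin N // b i = 0}) (he : M (some e) (some e) ≠ 0)
    (g : MvPolynomial (Fin N) F) (hg : g ≠ 0) (hge : degreeOf (e : Fin N) g = 0) :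
    ∃ p : Fin N → F, eval p (Yv b ⬝ᵥ M *ᵥ Yv b) = 0 ∧ eval p g ≠ 0 := by
  classical
  obtain ⟨c, hc⟩ : ∃ c : Fin N → F, eval c (g * M.det * M (some e) (some e)) ≠ 0 := by
    by_contra hcon
    push Not at hcon
    exact mul_ne_zero (mul_ne_zero hg hdet) he (MvPolynomial.funext fun c => by rw [hcon c, map_zero])
  rw [map_mul, map_mul] at hc
  have hcg := left_ne_zero_of_mul (left_ne_zero_of_mul hc)
  have hcd := right_ne_zero_of_mul (left_ne_zero_of_mul hc)
  have hce := right_ne_zero_of_mul hc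
  obtain ⟨Mc, hMc⟩ : ∃ Mc : Matrix (Option {i : Fin N // b i = 0}) (Option {i : Fin N // b i = 0}) F,
    Mc = (eval c).mapMatrix M := ⟨_, rfl⟩
  have hMcdet : Mc.det ≠ 0 := by
    rw [hMc, ← RingHom.map_det]
    exact hcd
  have hMce : Mc (some e) (some e) ≠ 0 := by
    rw [hMc]
    exact hce
  have hMcs : Mc.IsSymm := by
    rw [hMc]
    exact hs.map _
  -- an isotropic vector
  obtain ⟨ψ, hψ⟩ : ∃ ψ : MvPolynomial (Option {i : Fin N // b i = 0}) F,
    ψ = ∑ a, ∑ a', C (Mc a a') * X a * X a' := ⟨_, rfl⟩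
  have hψ2 : ψ.IsHomogeneous 2 := by
    rw [hψ]
    refine IsHomogeneous.sum _ _ _ fun a _ => IsHomogeneous.sum _ _ _ fun a' _ => ?_
    exact ((isHomogeneous_C (Option {i : Fin N // b i = 0}) (Mc a a')).mul
      (isHomogeneous_X F a)).mul (isHomogeneous_X F a')
  have hψe : ∀ a : Option {i : Fin N // b i = 0} → F, eval a ψ = a ⬝ᵥ Mc *ᵥ a := by
    intro a
    rw [hψ, map_sum, dotProduct]
    refine Finset.sum_congr rfl fun i _ => ?_
    rw [map_sum, mulVec, dotProduct, Finset.mul_sum]
    refine Finset.sum_congr rfl fun j _ => ?_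
    rw [map_mul, map_mul, eval_C, eval_X, eval_X]
    ring
  obtain ⟨u, hu0, huu0⟩ := hq ψ hψ2
  rw [hψe] at huu0
  -- the polar hyperplane
  obtain ⟨ℓ, hℓ⟩ : ∃ ℓ : Option {i : Fin N // b i = 0} → F, ℓ = u ᵥ* Mc := ⟨_, rfl⟩
  have hℓ0 : ℓ ≠ 0 := by
    intro h0
    apply hu0
    rw [hℓ] at h0
    have hun : IsUnit Mc.det := isUnit_iff_ne_zero.2 hMcdet
    have h1 : (u ᵥ* Mc) ᵥ* Mc⁻¹ = u := by
      rw [vecMul_vecMul, mul_nonsing_inv _ hun, vecMul_one]
    rw [← h1, h0, zero_vecMul]
  have hRM := resM_ne Mc hMcdet hcard ℓ hℓ0 (some e) hMce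
  obtain ⟨Np, hNp⟩ : ∃ Np : MvPolynomial (Fin N) F,
    Np = ∑ a, ∑ a', C (resM Mc ℓ (some e) a a') * Yv b a * Yv b a' := ⟨_, rfl⟩
  have hNpe : ∀ a : Fin N → F, eval a Np = (fun i => eval a (Yv b i)) ⬝ᵥ resM Mc ℓ (some e) *ᵥ
      (fun i => eval a (Yv b i)) := by
    intro a
    rw [hNp, map_sum, dotProduct]
    refine Finset.sum_congr rfl fun i _ => ?_
    rw [map_sum, mulVec, dotProduct, Finset.mul_sum]
    refine Finset.sum_congr rfl fun j _ => ?_
    rw [map_mul, map_mul, eval_C]
    ring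
  have hNp0 : Np ≠ 0 := by
    intro h0
    apply hRM
    refine symm_zero _ (resM_symm Mc hMcs ℓ _) fun y hy => ?_
    have h1 := hNpe (fun i => if h : b i = 0 then y (some ⟨i, h⟩) else 0)
    rw [h0, map_zero] at h1
    have h2 : (fun i => eval (fun i => if h : b i = 0 then y (some ⟨i, h⟩) else 0) (Yv b i)) = y := by
      funext i
      rcases i with _ | i
      · rw [hy]
        exact map_one _
      · change eval _ (X (i : Fin N)) = _
        rw [eval_X, dif_pos i.2]
    rw [h2] at h1
    exact h1.symm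
  obtain ⟨gr, hgr⟩ : ∃ gr : MvPolynomial (Fin N) F,
    gr = aeval (fun i => if b i = 0 then X i else C (c i)) g := ⟨_, rfl⟩
  have hgre : ∀ a : Fin N → F, eval a gr = eval (fun i => if b i = 0 then a i else c i) g := by
    intro a
    rw [hgr]
    have h1 := MvPolynomial.comp_aeval_apply (f := fun i => if b i = 0 then (X i : MvPolynomial (Fin N) F) else C (c i))
      (aeval a : MvPolynomial (Fin N) F →ₐ[F] F) g
    rw [← ae, ← ae]
    refine h1.trans ?_
    congr 2
    funext i
    by_cases h : b i = 0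
    · rw [if_pos h, if_pos h, aeval_X]
    · rw [if_neg h, if_neg h, aeval_C]
      rfl
  have hgr0 : gr ≠ 0 := by
    intro h0
    have h1 := hgre c
    rw [h0, map_zero] at h1
    have h2 : (fun i => if b i = 0 then c i else c i) = c := funext fun i => by rw [ite_self]
    rw [h2] at h1
    exact hcg h1.symm
  obtain ⟨c'', hc''⟩ : ∃ c'' : Fin N → F, eval c'' (gr * Np) ≠ 0 := by
    by_contra hcon
    push Not at hcon
    exact mul_ne_zero hgr0 hNp0 (MvPolynomial.funext fun c => by rw [hcon c, map_zero])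
  rw [map_mul] at hc''
  obtain ⟨c', hc'⟩ : ∃ c' : Fin N → F, c' = fun i => if b i = 0 then c'' i else c i := ⟨_, rfl⟩
  have hc'g : eval c' g ≠ 0 := by
    rw [hc', ← hgre]
    exact left_ne_zero_of_mul hc''
  obtain ⟨y0, hy0⟩ : ∃ y0 : Option {i : Fin N // b i = 0} → F, y0 = fun a => eval c' (Yv b a) := ⟨_, rfl⟩
  have hy0n : y0 none = 1 := by
    rw [hy0]
    exact map_one _
  have hy0s : ∀ i : {i : Fin N // b i = 0}, y0 (some i) = c' i := by
    intro i
    rw [hy0]
    exact eval_X _
  have hNy : y0 ⬝ᵥ resM Mc ℓ (some e) *ᵥ y0 ≠ 0 := by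
    have h1 := right_ne_zero_of_mul hc''
    rw [hNpe] at h1
    have h2 : (fun i => eval c'' (Yv b i)) = y0 := by
      funext i
      rcases i with _ | i
      · rw [hy0n]
        exact map_one _
      · rw [hy0s, hc']
        simp only
        rw [if_pos i.2]
        exact eval_X _
    rw [h2] at h1
    exact h1
  have hc'c : ∀ i, b i ≠ 0 → c' i = c i := fun i hi => by rw [hc']; simp only; rw [if_neg hi]
  -- the parametrisation
  obtain ⟨Bp, hBp⟩ : ∃ Bp : MvPolynomial (Option {i : Fin N // b i = 0}) F,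
    Bp = 2 * ∑ a, C (ℓ a) * X a := ⟨_, rfl⟩
  obtain ⟨D, hD⟩ : ∃ D, D = Bp * X none - ψ * C (u none) := ⟨_, rfl⟩
  obtain ⟨A, hA⟩ : ∃ A : Fin N → MvPolynomial (Option {i : Fin N // b i = 0}) F, A = fun i =>
    if h : b i = 0 then Bp * X (some ⟨i, h⟩) - ψ * C (u (some ⟨i, h⟩)) else C (c i) * D := ⟨_, rfl⟩
  obtain ⟨G', n, hG'⟩ := clearG (σ := Option {i : Fin N // b i = 0}) (τ := Fin N) A D g
  have hP : G' * D ≠ 0 := by
    intro h0
    have hΩ : CharZero (AlgebraicClosure F) :=
      charZero_of_injective_algebraMap (algebraMap F (AlgebraicClosure F)).injective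
    obtain ⟨α, hα⟩ : ∃ α : F →+* AlgebraicClosure F, α = algebraMap F (AlgebraicClosure F) := ⟨_, rfl⟩
    -- the root
    obtain ⟨q2, hq2⟩ : ∃ q2, q2 = Mc (some e) (some e) := ⟨_, rfl⟩
    obtain ⟨q1, hq1⟩ : ∃ q1, q1 = Mc (some e) ⬝ᵥ y0 := ⟨_, rfl⟩
    obtain ⟨q0, hq0⟩ : ∃ q0, q0 = y0 ⬝ᵥ Mc *ᵥ y0 := ⟨_, rfl⟩
    obtain ⟨τ, hτ⟩ : ∃ τ : AlgebraicClosure F, α q2 * τ ^ 2 + 2 * α q1 * τ + α q0 = 0 := by
      obtain ⟨s, hs⟩ := IsAlgClosed.exists_pow_nat_eq (α (q1 ^ 2 - q2 * q0)) (n := 2) two_pos
      have h2 : α q2 ≠ 0 := by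
        rw [Ne, map_eq_zero, hq2]
        exact hMce
      refine ⟨(s - α q1) / α q2, ?_⟩
      rw [map_sub, map_pow, map_mul] at hs
      field_simp
      linear_combination hs
    obtain ⟨v, hv⟩ : ∃ v : Option {i : Fin N // b i = 0} → AlgebraicClosure F,
      v = (fun a => α (y0 a)) + Pi.single (some e) τ := ⟨_, rfl⟩
    have hvn : v none = 1 := by
      rw [hv, Pi.add_apply, hy0n, map_one, Pi.single_eq_of_ne (by simp), add_zero]
    have haC : ∀ z : F, aeval v (C z : MvPolynomial (Option {i : Fin N // b i = 0}) F) = α z := by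
      intro z
      rw [aeval_C, hα]
    obtain ⟨Ma, hMa⟩ : ∃ Ma : Matrix (Option {i : Fin N // b i = 0}) (Option {i : Fin N // b i = 0})
      (AlgebraicClosure F), Ma = α.mapMatrix Mc := ⟨_, rfl⟩
    have hMas : Ma.IsSymm := by
      rw [hMa]
      exact hMcs.map _
    have hMaa : ∀ a a', Ma a a' = α (Mc a a') := fun a a' => by rw [hMa]; rfl
    have hdot : ∀ x y : Option {i : Fin N // b i = 0} → F, (fun a => α (x a)) ⬝ᵥ (fun a => α (y a)) =
        α (x ⬝ᵥ y) := by
      intro x y
      rw [dotProduct, dotProduct, map_sum]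
      exact Finset.sum_congr rfl fun a _ => (map_mul _ _ _).symm
    have hmv : ∀ y : Option {i : Fin N // b i = 0} → F, Ma *ᵥ (fun a => α (y a)) =
        fun a => α ((Mc *ᵥ y) a) := by
      intro y
      funext a
      rw [mulVec, mulVec]
      have h1 : Ma a = fun a' => α (Mc a a') := funext fun a' => hMaa a a'
      rw [h1]
      exact hdot _ _
    have hψ0 : aeval v ψ = 0 := by
      have h1 : aeval v ψ = v ⬝ᵥ Ma *ᵥ v := by
        rw [hψ, map_sum, dotProduct]
        refine Finset.sum_congr rfl fun a _ => ?_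
        rw [map_sum, mulVec, dotProduct, Finset.mul_sum]
        refine Finset.sum_congr rfl fun a' _ => ?_
        have h10 : aeval v (C (Mc a a') * X a * X a' :
            MvPolynomial (Option {i : Fin N // b i = 0}) F) = α (Mc a a') * v a * v a' := by
          rw [map_mul, map_mul, haC, aeval_X, aeval_X]
        rw [h10, hMaa]
        ring
      rw [h1, hv, mulVec_add, dotProduct_add, add_dotProduct, add_dotProduct, hmv, hdot, single_dotProduct]
      have h2 : (fun a => α (y0 a)) ⬝ᵥ Ma *ᵥ Pi.single (some e) τ = τ * α q1 := by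
        rw [dotProduct_mulVec, dotProduct_single, ← mulVec_transpose, hMas.eq, hmv, hq1, mul_comm]
        rfl
      have h3 : Pi.single (some e) τ ⬝ᵥ Ma *ᵥ Pi.single (some e) τ = τ ^ 2 * α q2 := by
        rw [single_dotProduct, mulVec, dotProduct_single, hMaa, hq2]
        ring
      rw [h2, h3]
      have h4 : (Mc *ᵥ y0) (some e) = q1 := by
        rw [hq1]
        rfl
      rw [h4, ← hq0]
      linear_combination hτ
    have hL : aeval v Bp = 2 * (α (ℓ ⬝ᵥ y0) + α (ℓ (some e)) * τ) := by
      rw [hBp, map_mul, map_ofNat, map_sum]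
      congr 1
      have h1 : ∀ a, aeval v (C (ℓ a) * X a : MvPolynomial (Option {i : Fin N // b i = 0}) F) =
          α (ℓ a) * α (y0 a) + α (ℓ a) * (Pi.single (some e) τ : Option {i : Fin N // b i = 0} → AlgebraicClosure F) a := by
        intro a
        rw [map_mul, haC, aeval_X, hv, Pi.add_apply, mul_add]
      rw [Finset.sum_congr rfl fun a _ => h1 a, Finset.sum_add_distrib]
      congr 1
      · exact hdot ℓ y0
      · exact dotProduct_single (fun a => α (ℓ a)) τ (some e)
    have hβ0 : aeval v Bp ≠ 0 := by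
      rw [hL]
      refine mul_ne_zero two_ne_zero fun h1 => hNy ?_
      have h2 : α (y0 ⬝ᵥ resM Mc ℓ (some e) *ᵥ y0) = 0 := by
        rw [resM_eval, ← hq2, ← hq1, ← hq0]
        simp only [map_add, map_sub, map_mul, map_pow, map_ofNat]
        linear_combination (α q2 * (α (ℓ ⬝ᵥ y0) - α (ℓ (some e)) * τ) - 2 * α (ℓ (some e)) * α q1) * h1 +
          α (ℓ (some e)) ^ 2 * hτ
      exact (map_eq_zero α).1 h2
    have hD0 : aeval v D = aeval v Bp := by
      rw [hD, map_sub, map_mul, map_mul, hψ0, aeval_X, hvn, mul_one, zero_mul, sub_zero]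
    obtain ⟨cv, hcv⟩ : ∃ cv : Fin N → AlgebraicClosure F, cv = fun i => if h : b i = 0 then v (some ⟨i, h⟩) else
      α (c i) := ⟨_, rfl⟩
    have h5 := hG' v cv (by
      intro i
      rw [hA, hcv]
      simp only
      by_cases hi : b i = 0
      · rw [dif_pos hi, dif_pos hi, map_sub, map_mul, map_mul, hψ0, aeval_X, hD0, zero_mul, sub_zero, mul_comm]
      · rw [dif_neg hi, dif_neg hi, map_mul, haC])
    have h6 : aeval v G' = 0 := by
      have h7 : aeval v (G' * D) = 0 := by rw [h0, map_zero]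
      rw [map_mul, hD0] at h7
      exact (mul_eq_zero.1 h7).resolve_right hβ0
    rw [h6, hD0] at h5
    have h8 := (mul_eq_zero.1 h5).resolve_right (pow_ne_zero _ hβ0)
    have h9 : aeval cv g = α (eval c' g) := by
      have h10 : aeval cv g = eval cv (map α g) := by
        rw [eval_map, aeval_def, hα]
      have h11 : α (eval c' g) = eval (fun i => α (c' i)) (map α g) := by
        rw [eval_map]
        exact eval₂_comp _ _ _
      rw [h10, h11]
      refine eval_congr_deg _ _ _ fun i hi => ?_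
      have h12 : i = (e : Fin N) := by
        by_contra hne
        apply hi
        rw [hcv]
        simp only
        by_cases hb : b i = 0
        · rw [dif_pos hb, hv, Pi.add_apply, hy0s, Pi.single_eq_of_ne, add_zero]
          intro h
          apply hne
          have := Option.some.inj h
          rw [← this]
        · rw [dif_neg hb, hc'c i hb]
      rw [h12]
      refine Nat.le_zero.1 (degreeOf_le_iff.2 fun d hd => ?_)
      have h13 : d ∈ g.support := support_map_subset _ _ hd
      exact (monomial_le_degreeOf _ h13).trans hge.le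
    rw [h9, map_eq_zero] at h8
    exact hc'g h8
  obtain ⟨v, hv⟩ : ∃ v, eval v (G' * D) ≠ 0 := by
    by_contra hcon
    push Not at hcon
    exact hP (MvPolynomial.funext fun c => by rw [hcon c, map_zero])
  rw [map_mul] at hv
  have hvD := right_ne_zero_of_mul hv
  have hvG := left_ne_zero_of_mul hv
  obtain ⟨p, hp⟩ : ∃ p : Fin N → F, ∀ i, p i * eval v D = eval v (A i) :=
    ⟨fun i => eval v (A i) / eval v D, fun i => div_mul_cancel₀ _ hvD⟩
  have hpg : eval p g ≠ 0 := by
    intro h0
    have h1 := hG' v p hp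
    rw [ae, ae, ae, h0, zero_mul] at h1
    exact hvG h1.symm
  have hpc : ∀ i, b i ≠ 0 → p i = c i := by
    intro i hi
    have h1 := hp i
    rw [hA] at h1
    simp only at h1
    rw [dif_neg hi, map_mul, eval_C] at h1
    exact mul_right_cancel₀ hvD h1
  have hB : eval v Bp = 2 * (u ⬝ᵥ Mc *ᵥ v) := by
    rw [hBp, map_mul, map_ofNat, map_sum, dotProduct_mulVec, ← hℓ, dotProduct]
    congr 1
    refine Finset.sum_congr rfl fun a _ => ?_
    rw [map_mul, eval_C, eval_X]
  have hpar := param0 Mc hMcs u huu0 v (eval v Bp) (eval v ψ) hB (hψe v)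
  refine ⟨p, ?_, hpg⟩
  have h2 : ∀ a a', eval p (M a a') = Mc a a' := by
    intro a a'
    rw [hMc]
    change eval p (M a a') = eval c (M a a')
    refine eval_congr_deg p c _ fun i hi => hM a a' i ?_
    by_contra hb
    exact hi (hpc i hb)
  have h1 : eval v Bp • v - eval v ψ • u = eval v D • (fun a => eval p (Yv b a)) := by
    funext a
    rw [Pi.sub_apply, Pi.smul_apply, Pi.smul_apply, Pi.smul_apply, smul_eq_mul, smul_eq_mul, smul_eq_mul]
    rcases a with _ | i
    · change _ = eval v D * eval p 1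
      rw [map_one, mul_one, hD, map_sub, map_mul, map_mul, eval_X, eval_C]
    · change _ = eval v D * eval p (X (i : Fin N))
      rw [eval_X, mul_comm (eval v D), hp, hA]
      simp only
      rw [dif_pos i.2, map_sub, map_mul, map_mul, eval_X, eval_C]
  have h4 : eval p (Yv b ⬝ᵥ M *ᵥ Yv b) = (fun a => eval p (Yv b a)) ⬝ᵥ Mc *ᵥ (fun a => eval p (Yv b a)) := by
    rw [dotProduct, map_sum, dotProduct]
    refine Finset.sum_congr rfl fun a _ => ?_
    rw [map_mul, mulVec, dotProduct, map_sum, mulVec, dotProduct]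
    congr 1
    refine Finset.sum_congr rfl fun a' _ => ?_
    rw [map_mul, h2]
  rw [h1, mulVec_smul, smul_dotProduct, dotProduct_smul, smul_eq_mul, smul_eq_mul, ← h4] at hpar
  exact (mul_eq_zero.1 ((mul_eq_zero.1 hpar).resolve_left hvD)).resolve_left hvD

end Pool.Agent.N230.FC
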