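import Mathlib
import Pool.Agent.H552R3.Tsen.C1

/-!
# Conics over function fields of curves over an algebraically closed field
-/

set_option autoImplicit false

namespace Pool.Agent.N230.FC

open Polynomial

universe u

section

variable {k E L : Type u} [Field k] [Field E] [Field L] [Algebra k E] [Algebra E L] [Algebra k L]
  [IsScalarTower k E L]

theorem common_denom (x : E) (hE : ∀ c : E, ∃ p q : k[X], aeval x q ≠ 0 ∧ c * aeval x q = aeval x p)
    {J : Type*} [Fintype J] (c : J → E) :
    ∃ h : k[X], aeval x h ≠ 0 ∧ ∃ p : J → k[X], ∀ j, aeval x h * c j = aeval x (p j) := by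
  classical
  choose p q hq hpq using fun j => hE (c j)
  refine ⟨∏ j, q j, ?_, fun j => p j * ∏ i ∈ Finset.univ.erase j, q i, ?_⟩
  · rw [map_prod]
    exact Finset.prod_ne_zero_iff.2 fun j _ => hq j
  · intro j
    rw [map_mul, ← hpq j, ← Finset.mul_prod_erase Finset.univ q (Finset.mem_univ j), map_mul]
    ring

/-- A finite extension of `k(x)` is a `C1` field. -/
theorem c1 [IsAlgClosed k] [FiniteDimensional E L] (x : E) (hx : Transcendental k x)
    (hE : ∀ c : E, ∃ p q : k[X], aeval x q ≠ 0 ∧ c * aeval x q = aeval x p)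
    {I : Type} [Fintype I] (Ψ : MvPolynomial I L) (n : ℕ) (hdeg : Ψ.totalDegree ≤ n)
    (h0 : MvPolynomial.eval 0 Ψ = 0) (hcard : n < Fintype.card I) :
    ∃ a : I → L, a ≠ 0 ∧ MvPolynomial.eval a Ψ = 0 := by
  classical
  have hX : Transcendental k (algebraMap E L x) := by
    rwa [transcendental_algebraMap_iff (algebraMap E L).injective]
  let ω := Module.finBasis E L
  have hspan : ∀ z : L, ∃ h : k[X], h ≠ 0 ∧ ∃ p : Fin (Module.finrank E L) → k[X],
      aeval (algebraMap E L x) h * z = ∑ j, aeval (algebraMap E L x) (p j) * ω j := by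
    intro z
    obtain ⟨h, hh, p, hp⟩ := common_denom x hE (fun j => ω.repr z j)
    refine ⟨h, ?_, p, ?_⟩
    · rintro rfl
      exact hh (map_zero _)
    · conv_lhs => rw [← ω.sum_repr z]
      rw [Finset.mul_sum]
      refine Finset.sum_congr rfl fun j _ => ?_
      rw [aeval_algebraMap_apply, aeval_algebraMap_apply, ← hp, map_mul, Algebra.smul_def, mul_assoc]
  have hlin : ∀ p : Fin (Module.finrank E L) → k[X],
      ∑ j, aeval (algebraMap E L x) (p j) * ω j = 0 → ∀ j, p j = 0 := by
    intro p hp j
    have h1 : ∑ j, (aeval x (p j)) • ω j = 0 := by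
      rw [← hp]
      refine Finset.sum_congr rfl fun j _ => ?_
      rw [aeval_algebraMap_apply, Algebra.smul_def]
    have h2 := (Fintype.linearIndependent_iff.1 ω.linearIndependent) _ h1 j
    by_contra h0
    exact hx ⟨p j, h0, h2⟩
  exact Pool.Agent.H552R3.Tsen.exists_zero (algebraMap E L x) ω hX hspan hlin Ψ n hdeg h0 hcard

end

/-- **Conics over function fields of curves.** Every equation `y² = A t² + B t + D`, `A ≠ 0`, has a solution in a field
of transcendence degree one over an algebraically closed field. -/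
theorem conic_pt {k F : Type u} [Field k] [IsAlgClosed k] [Field F] [CharZero F] [Algebra k F] (x : F)
    (hx : Transcendental k x) (halg : Algebra.IsAlgebraic (IntermediateField.adjoin k {x}) F)
    (A B D : F) (hA : A ≠ 0) : ∃ t y : F, y ^ 2 = A * t ^ 2 + B * t + D := by
  classical
  obtain ⟨E, hEdef⟩ : ∃ E : IntermediateField k F, E = IntermediateField.adjoin k {x} := ⟨_, rfl⟩
  rw [← hEdef] at halg
  have hxE : x ∈ E := by
    rw [hEdef]
    exact IntermediateField.mem_adjoin_simple_self k x
  let L := IntermediateField.adjoin E ({A, B, D} : Set F)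
  have hfin : FiniteDimensional E L :=
    IntermediateField.finiteDimensional_adjoin fun c _ => (Algebra.IsAlgebraic.isAlgebraic c).isIntegral
  let xE : E := ⟨x, hxE⟩
  have hxt : Transcendental k xE := by
    intro h
    apply hx
    have h1 := h.algebraMap (A := F)
    exact h1
  have hE : ∀ c : E, ∃ p q : k[X], aeval xE q ≠ 0 ∧ c * aeval xE q = aeval xE p := by
    intro c
    have hc : (c : F) ∈ IntermediateField.adjoin k {x} := by
      rw [← hEdef]
      exact c.2
    obtain ⟨p, q, hpq⟩ := (IntermediateField.mem_adjoin_simple_iff k (c : F)).1 hc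
    have hae : ∀ r : k[X], ((aeval xE r : E) : F) = aeval x r := by
      intro r
      exact (aeval_algebraMap_apply F xE r).symm
    by_cases hq : aeval x q = 0
    · refine ⟨0, 1, by rw [map_one]; exact one_ne_zero, ?_⟩
      apply Subtype.ext
      rw [hq, div_zero] at hpq
      rw [map_one, mul_one, map_zero]
      exact hpq
    · refine ⟨p, q, ?_, ?_⟩
      · intro h0
        apply hq
        rw [← hae, h0]
        rfl
      · apply Subtype.ext
        change (c : F) * ((aeval xE q : E) : F) = ((aeval xE p : E) : F)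
        rw [hae, hae, hpq, div_mul_cancel₀ _ hq]
  have hmem : ∀ z ∈ ({A, B, D} : Set F), z ∈ L := fun z hz => IntermediateField.subset_adjoin _ _ hz
  let A' : L := ⟨A, hmem A (by simp)⟩
  let B' : L := ⟨B, hmem B (by simp)⟩
  let D' : L := ⟨D, hmem D (by simp)⟩
  let Ψ : MvPolynomial (Fin 3) L := MvPolynomial.X 0 ^ 2 - MvPolynomial.C A' * MvPolynomial.X 1 ^ 2 -
    MvPolynomial.C B' * MvPolynomial.X 1 * MvPolynomial.X 2 - MvPolynomial.C D' * MvPolynomial.X 2 ^ 2
  have hXX : ∀ i : Fin 3, (MvPolynomial.X i ^ 2 : MvPolynomial (Fin 3) L).totalDegree ≤ 2 := fun i =>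
    (MvPolynomial.totalDegree_pow _ _).trans (by rw [MvPolynomial.totalDegree_X])
  have hdeg : Ψ.totalDegree ≤ 2 := by
    refine (MvPolynomial.totalDegree_sub _ _).trans (max_le ((MvPolynomial.totalDegree_sub _ _).trans
      (max_le ((MvPolynomial.totalDegree_sub _ _).trans (max_le (hXX 0) ?_)) ?_)) ?_)
    · refine (MvPolynomial.totalDegree_mul _ _).trans ?_
      rw [MvPolynomial.totalDegree_C, zero_add]
      exact hXX 1
    · refine (MvPolynomial.totalDegree_mul _ _).trans ?_
      have h1 := MvPolynomial.totalDegree_mul (MvPolynomial.C B') (MvPolynomial.X 1 : MvPolynomial (Fin 3) L)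
      rw [MvPolynomial.totalDegree_C, MvPolynomial.totalDegree_X] at h1
      rw [MvPolynomial.totalDegree_X]
      omega
    · refine (MvPolynomial.totalDegree_mul _ _).trans ?_
      rw [MvPolynomial.totalDegree_C, zero_add]
      exact hXX 2
  obtain ⟨a, ha, ha0⟩ := c1 (E := E) (L := L) xE hxt hE Ψ 2 hdeg (by simp [Ψ]) (by simp)
  have hΨ : a 0 ^ 2 = A' * a 1 ^ 2 + B' * a 1 * a 2 + D' * a 2 ^ 2 := by
    simp only [Ψ, map_sub, map_mul, map_pow, MvPolynomial.eval_X, MvPolynomial.eval_C] at ha0
    linear_combination ha0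
  have hF : (a 0 : F) ^ 2 = A * (a 1 : F) ^ 2 + B * (a 1 : F) * (a 2 : F) + D * (a 2 : F) ^ 2 := by
    have := congrArg (algebraMap L F) hΨ
    simp only [map_add, map_mul, map_pow] at this
    exact this
  by_cases h2 : (a 2 : F) = 0
  · -- `A` is a square
    rw [h2] at hF
    have h1 : (a 1 : F) ≠ 0 := by
      intro h1
      rw [h1] at hF
      have h0 : (a 0 : F) = 0 := by
        have : (a 0 : F) ^ 2 = 0 := by rw [hF]; ring
        exact pow_eq_zero_iff (two_ne_zero) |>.1 this
      apply ha
      funext i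
      fin_cases i
      · exact Subtype.ext h0
      · exact Subtype.ext h1
      · exact Subtype.ext h2
    obtain ⟨s, hs⟩ : ∃ s, s = (a 0 : F) / a 1 := ⟨_, rfl⟩
    have hs2 : s ^ 2 = A := by
      rw [hs, div_pow, hF]
      field_simp
      ring
    have hs0 : s ≠ 0 := by
      rintro rfl
      apply hA
      rw [← hs2]
      ring
    obtain ⟨r, hr⟩ : ∃ r, r = (B + 1) / (2 * s) := ⟨_, rfl⟩
    have hr2 : 2 * s * r = B + 1 := by
      rw [hr]
      field_simp
    refine ⟨D - r ^ 2, s * (D - r ^ 2) + r, ?_⟩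
    rw [← hs2]
    linear_combination (D - r ^ 2) * hr2
  · refine ⟨(a 1 : F) / a 2, (a 0 : F) / a 2, ?_⟩
    rw [div_pow, hF]
    field_simp

end Pool.Agent.N230.FC
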