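import Pool.Agent.N230.FC.QPt4

/-!
# Quadratic polynomials in a block of variables
-/

set_option autoImplicit false

namespace Pool.Agent.N230.FC

open MvPolynomial Matrix

universe u v w

section

variable {N m : ℕ} (b : Fin N → Fin (m + 1))

/-- the exponents of the homogeneous coordinates of the block -/
noncomputable def mo : Option {i : Fin N // b i = 0} → (Fin N →₀ ℕ)
  | none => 0
  | some i => Finsupp.single (i : Fin N) 1

variable {b}

theorem mo_inj : Function.Injective (mo b) := by
  intro a a' h
  rcases a with _ | a
  · rcases a' with _ | a'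
    · rfl
    · have := DFunLike.congr_fun h (a' : Fin N)
      simp [mo] at this
  · rcases a' with _ | a'
    · have := DFunLike.congr_fun h (a : Fin N)
      simp [mo] at this
    · have h1 := (Finsupp.single_left_inj one_ne_zero).1 h
      rw [Subtype.ext h1]

theorem mo_add {a a' c c' : Option {i : Fin N // b i = 0}} (h : mo b a + mo b a' = mo b c + mo b c') :
    (a = c ∧ a' = c') ∨ (a = c' ∧ a' = c) := by
  classical
  have key : ∀ (x x' z z' : Option {i : Fin N // b i = 0}), mo b x + mo b x' = mo b z + mo b z' → x = z → x' = z' := by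
    intro x x' z z' h hx
    rw [hx] at h
    exact mo_inj (add_left_cancel h)
  have hs : ∀ (x x' z z' : Option {i : Fin N // b i = 0}), mo b x + mo b x' = mo b z + mo b z' → x ≠ none →
      x = z ∨ x = z' := by
    intro x x' z z' h hx
    rcases x with _ | x
    · exact absurd rfl hx
    · have h1 := DFunLike.congr_fun h (x : Fin N)
      rw [Finsupp.add_apply, Finsupp.add_apply] at h1
      have h2 : mo b (some x) (x : Fin N) = 1 := Finsupp.single_eq_same
      rw [h2] at h1
      by_contra hcon
      push Not at hcon
      have h3 : ∀ y : Option {i : Fin N // b i = 0}, some x ≠ y → mo b y (x : Fin N) = 0 := by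
        intro y hy
        rcases y with _ | y
        · rfl
        · refine Finsupp.single_eq_of_ne ?_
          intro h4
          exact hy (by rw [Subtype.ext h4])
      rw [h3 z hcon.1, h3 z' hcon.2] at h1
      omega
  by_cases ha : a = none
  · by_cases ha' : a' = none
    · subst ha; subst ha'
      by_cases hc : c = none
      · subst hc
        exact Or.inl ⟨rfl, key none none none c' h rfl⟩
      · rcases hs c c' none none h.symm hc with h1 | h1 <;> exact absurd h1 hc
    · rcases hs a' a c c' (by rw [add_comm, h]) ha' with h1 | h1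
      · exact Or.inr ⟨key a' a c c' (by rw [add_comm, h]) h1, h1⟩
      · exact Or.inl ⟨key a' a c' c (by rw [add_comm, h, add_comm]) h1, h1⟩
  · rcases hs a a' c c' h ha with h1 | h1
    · exact Or.inl ⟨h1, key a a' c c' h h1⟩
    · exact Or.inr ⟨h1, key a a' c' c (by rw [h, add_comm]) h1⟩

/-- the representation of a quadratic polynomial by a symmetric matrix -/
def QR {F : Type u} [Field F] (b : Fin N → Fin (m + 1)) (f : MvPolynomial (Fin N) F) : Prop :=
  ∃ D : Matrix (Option {i : Fin N // b i = 0}) (Option {i : Fin N // b i = 0}) (MvPolynomial (Fin N) F),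
    D.IsSymm ∧ (∀ a a' i, b i = 0 → degreeOf i (D a a') = 0) ∧ f = Yv b ⬝ᵥ D *ᵥ Yv b ∧
    ∀ a a', coeff 0 (D a a') = (if a = a' then 1 else 2⁻¹) * coeff (mo b a + mo b a') f

theorem QR.add {F : Type u} [Field F] {f g : MvPolynomial (Fin N) F} (hf : QR b f) (hg : QR b g) :
    QR b (f + g) := by
  obtain ⟨D, h1, h2, h3, h4⟩ := hf
  obtain ⟨D', h1', h2', h3', h4'⟩ := hg
  refine ⟨D + D', h1.add h1', fun a a' i hi => ?_, ?_, fun a a' => ?_⟩
  · have h5 := degreeOf_add_le i (D a a') (D' a a')
    rw [h2 a a' i hi, h2' a a' i hi] at h5
    exact Nat.le_zero.1 h5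
  · rw [add_mulVec, dotProduct_add, ← h3, ← h3']
  · rw [Matrix.add_apply, coeff_add, coeff_add, h4, h4', mul_add]

theorem Yv_eq {F : Type u} [Field F] (a : Option {i : Fin N // b i = 0}) :
    (Yv b a : MvPolynomial (Fin N) F) = monomial (mo b a) 1 := by
  rcases a with _ | a
  · rfl
  · rfl

theorem QR.mono {F : Type u} [Field F] [CharZero F] (d : Fin N →₀ ℕ) (c : F) (hd : ∀ i, b i = 0 → d i = 0)
    (a a' : Option {i : Fin N // b i = 0}) : QR b (monomial (d + (mo b a + mo b a')) c) := by
  classical
  have h2 : (2 : F) ≠ 0 := two_ne_zero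
  refine ⟨Matrix.single a a' (monomial d (2⁻¹ * c)) + Matrix.single a' a (monomial d (2⁻¹ * c)), ?_, ?_, ?_, ?_⟩
  · rw [Matrix.IsSymm, transpose_add, transpose_single, transpose_single]
    exact add_comm _ _
  · intro x x' i hi
    have h0 : degreeOf i (monomial d (2⁻¹ * c) : MvPolynomial (Fin N) F) = 0 := by
      refine Nat.le_zero.1 (degreeOf_le_iff.2 fun e he => ?_)
      have h3 := support_monomial_subset he
      rw [Finset.mem_singleton] at h3
      rw [h3, hd i hi]
    have key : ∀ y y' : Option {i : Fin N // b i = 0},
        degreeOf i (Matrix.single y y' (monomial d (2⁻¹ * c) : MvPolynomial (Fin N) F) x x') = 0 := by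
      intro y y'
      rw [Matrix.single_apply]
      split_ifs
      · exact h0
      · exact degreeOf_zero i
    have h5 := degreeOf_add_le i (Matrix.single a a' (monomial d (2⁻¹ * c) : MvPolynomial (Fin N) F) x x')
      (Matrix.single a' a (monomial d (2⁻¹ * c) : MvPolynomial (Fin N) F) x x')
    rw [key, key] at h5
    exact Nat.le_zero.1 h5
  · have key : ∀ y y' : Option {i : Fin N // b i = 0},
        Yv b ⬝ᵥ (Matrix.single y y' (monomial d (2⁻¹ * c) : MvPolynomial (Fin N) F)) *ᵥ Yv b =
          monomial (d + (mo b y + mo b y')) (2⁻¹ * c) := by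
      intro y y'
      rw [single_mulVec]
      change _ ⬝ᵥ Pi.single y _ = _
      rw [dotProduct_single, Yv_eq, Yv_eq, monomial_mul, monomial_mul]
      congr 1
      · rw [add_comm, add_assoc, add_comm (mo b y')]
      · ring
    rw [add_mulVec, dotProduct_add, key, key, add_comm (mo b a') (mo b a), ← map_add]
    congr 1
    field_simp
    ring
  · intro x x'
    rw [Matrix.add_apply, coeff_add, coeff_monomial, Matrix.single_apply, Matrix.single_apply]
    by_cases hd0 : d = 0
    · subst hd0
      rw [zero_add]
      by_cases h1 : mo b a + mo b a' = mo b x + mo b x'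
      · rw [if_pos h1]
        rcases mo_add h1 with ⟨rfl, rfl⟩ | ⟨rfl, rfl⟩
        · by_cases h3 : a = a'
          · subst h3
            simp
            field_simp
            ring
          · rw [if_pos ⟨rfl, rfl⟩, if_neg (fun h => h3 h.1.symm), if_neg h3]
            simp
        · by_cases h3 : a = a'
          · subst h3
            simp
            field_simp
            ring
          · rw [if_neg (fun h => h3 h.1), if_pos ⟨rfl, rfl⟩, if_neg (fun h => h3 h.symm)]
            simp
      · rw [if_neg h1, if_neg, if_neg, mul_zero]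
        · simp
        · rintro ⟨rfl, rfl⟩
          exact h1 (add_comm _ _)
        · rintro ⟨rfl, rfl⟩
          exact h1 rfl
    · have h1 : ¬ d + (mo b a + mo b a') = mo b x + mo b x' := by
        intro h
        apply hd0
        ext i
        by_cases hi : b i = 0
        · exact hd i hi
        · have h3 := DFunLike.congr_fun h i
          have h4 : ∀ y : Option {i : Fin N // b i = 0}, mo b y i = 0 := by
            intro y
            rcases y with _ | y
            · rfl
            · refine Finsupp.single_eq_of_ne ?_
              intro h5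
              exact hi (h5 ▸ y.2)
          rw [Finsupp.add_apply, Finsupp.add_apply, Finsupp.add_apply, h4, h4, h4, h4] at h3
          simpa using h3
      rw [if_neg h1, mul_zero]
      have key : ∀ P : Prop, [Decidable P] → coeff 0 (if P then (monomial d (2⁻¹ * c) : MvPolynomial (Fin N) F)
          else 0) = 0 := by
        intro P _
        split_ifs
        · rw [coeff_monomial, if_neg hd0]
        · exact coeff_zero 0
      rw [key, key, add_zero]

/-- polynomials of degree at most two in the block -/
theorem QR.of_deg {F : Type u} [Field F] [CharZero F] (f : MvPolynomial (Fin N) F)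
    (hf : ∀ d ∈ f.support, ∑ i with b i = 0, d i ≤ 2) : QR b f := by
  classical
  have h0 : QR b (0 : MvPolynomial (Fin N) F) :=
    ⟨0, by rw [Matrix.IsSymm, transpose_zero], fun a a' i _ => degreeOf_zero i,
      by rw [zero_mulVec, dotProduct_zero], fun a a' => by rw [Matrix.zero_apply, coeff_zero, coeff_zero, mul_zero]⟩
  have hmono : ∀ (d : Fin N →₀ ℕ) (c : F), ∑ i with b i = 0, d i ≤ 2 → QR b (monomial d c) := by
    intro d c hd
    obtain ⟨d', hd'⟩ : ∃ d' : Fin N →₀ ℕ, d' = d.filter (fun i => b i ≠ 0) := ⟨_, rfl⟩
    obtain ⟨d0, hd0⟩ : ∃ d0 : Fin N →₀ ℕ, d0 = d.filter (fun i => ¬ b i ≠ 0) := ⟨_, rfl⟩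
    have hdd : d = d' + d0 := by
      rw [hd', hd0]
      exact (Finsupp.filter_add_filter_not d _).symm
    have h1 : ∀ i, b i = 0 → d' i = 0 := fun i hi => by
      rw [hd', Finsupp.filter_apply_neg _ _ (fun h => h hi)]
    have h2 : ∑ i, d0 i ≤ 2 := by
      refine le_trans (le_of_eq ?_) hd
      rw [Finset.sum_filter]
      refine Finset.sum_congr rfl fun i _ => ?_
      rw [hd0, Finsupp.filter_apply]
      by_cases h : b i = 0
      · rw [if_pos h, if_pos (fun h' => h' h)]
      · rw [if_neg h, if_neg (fun h' => h' h)]
    have hsup : ∀ i, b i ≠ 0 → d0 i = 0 := fun i hi => by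
      rw [hd0, Finsupp.filter_apply_neg _ _ (fun h => h hi)]
    -- the decomposition of `d0`
    have h3 : ∃ a a' : Option {i : Fin N // b i = 0}, d0 = mo b a + mo b a' := by
      by_cases hz : d0 = 0
      · exact ⟨none, none, by rw [hz]; rfl⟩
      · obtain ⟨i, hi⟩ := Finsupp.ne_iff.1 hz
        rw [Finsupp.zero_apply] at hi
        have hbi : b i = 0 := by
          by_contra h
          exact hi (hsup i h)
        obtain ⟨d1, hd1⟩ : ∃ d1 : Fin N →₀ ℕ, d0 = Finsupp.single i 1 + d1 := by
          refine ⟨d0 - Finsupp.single i 1, ?_⟩
          rw [add_comm, tsub_add_cancel_of_le]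
          rw [Finsupp.single_le_iff]
          omega
        have hs1 : ∑ j, d1 j ≤ 1 := by
          have h5 : ∑ j, d0 j = 1 + ∑ j, d1 j := by
            rw [hd1]
            simp only [Finsupp.add_apply]
            rw [Finset.sum_add_distrib]
            congr 1
            rw [Finset.sum_eq_single i]
            · exact Finsupp.single_eq_same
            · intro j _ hj
              exact Finsupp.single_eq_of_ne hj
            · intro h
              exact absurd (Finset.mem_univ _) h
          omega
        by_cases hz1 : d1 = 0
        · refine ⟨some ⟨i, hbi⟩, none, ?_⟩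
          rw [hd1, hz1]
          rfl
        · obtain ⟨j, hj⟩ := Finsupp.ne_iff.1 hz1
          rw [Finsupp.zero_apply] at hj
          have hbj : b j = 0 := by
            by_contra h
            have h6 := hsup j h
            rw [hd1, Finsupp.add_apply] at h6
            omega
          refine ⟨some ⟨i, hbi⟩, some ⟨j, hbj⟩, ?_⟩
          rw [hd1]
          change _ = Finsupp.single i 1 + Finsupp.single j 1
          congr 1
          ext l
          by_cases hl : l = j
          · subst hl
            rw [Finsupp.single_eq_same]
            have := Finset.single_le_sum (f := fun j => d1 j) (fun _ _ => Nat.zero_le _) (Finset.mem_univ l)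
            omega
          · rw [Finsupp.single_eq_of_ne hl]
            have h7 : d1 l + d1 j ≤ ∑ j, d1 j := by
              rw [← Finset.sum_pair hl]
              exact Finset.sum_le_sum_of_subset (Finset.subset_univ _)
            omega
    obtain ⟨a, a', haa⟩ := h3
    rw [hdd, haa]
    exact QR.mono d' c h1 a a'
  have hsum : ∀ s : Finset (Fin N →₀ ℕ), (∀ d ∈ s, ∑ i with b i = 0, d i ≤ 2) →
      QR b (∑ d ∈ s, monomial d (coeff d f)) := by
    intro s
    induction s using Finset.induction_on with
    | empty =>
      intro _
      rw [Finset.sum_empty]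
      exact h0
    | insert d s hds ih =>
      intro h
      rw [Finset.sum_insert hds]
      exact (hmono d _ (h d (Finset.mem_insert_self _ _))).add (ih fun e he => h e (Finset.mem_insert_of_mem he))
  rw [f.as_sum]
  exact hsum _ hf

end

end Pool.Agent.N230.FC
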